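import Mathlib

set_option autoImplicit false

namespace Pool.Agent.Helper293.EvenBlocks

open Finset

open Classical in
/-- the chains contained in a finite set -/
noncomputable def chains {α : Type} [PartialOrder α] (P : Finset α) : Finset (Finset α) :=
  P.powerset.filter fun C => IsChain (· ≤ ·) (C : Set α)

open Classical in
theorem mem_chains {α : Type} [PartialOrder α] {P C : Finset α} :
    C ∈ chains P ↔ C ⊆ P ∧ IsChain (· ≤ ·) (C : Set α) := by
  unfold chains
  rw [mem_filter, mem_powerset]

/-- alternating sum over the chains -/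
noncomputable def chi {α : Type} [PartialOrder α] (P : Finset α) : ℤ :=
  ∑ C ∈ chains P, (-1 : ℤ) ^ C.card

theorem chi_map {α β : Type} [PartialOrder α] [PartialOrder β] (φ : α ↪o β) (P : Finset α) :
    chi (P.map φ.toEmbedding) = chi P := by
  unfold chi
  symm
  refine Finset.sum_bij (fun C _ => C.map φ.toEmbedding) ?_ ?_ ?_ ?_
  · intro C hC
    rw [mem_chains] at hC ⊢
    refine ⟨Finset.map_subset_map.2 hC.1, ?_⟩
    intro x hx y hy hxy
    simp only [coe_map, Set.mem_image, mem_coe] at hx hy
    obtain ⟨x, hx, rfl⟩ := hx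
    obtain ⟨y, hy, rfl⟩ := hy
    have := hC.2 hx hy (fun h => hxy (by rw [h]))
    rcases this with h | h
    · left; exact φ.le_iff_le.2 h
    · right; exact φ.le_iff_le.2 h
  · intro C _ D _ h
    exact Finset.map_injective _ h
  · intro D hD
    rw [mem_chains] at hD
    obtain ⟨C, hC, rfl⟩ := Finset.subset_map_iff.1 hD.1
    refine ⟨C, ?_, rfl⟩
    rw [mem_chains]
    refine ⟨hC, ?_⟩
    intro x hx y hy hxy
    have hx' : φ x ∈ (C.map φ.toEmbedding : Set β) := by simpa using hx
    have hy' : φ y ∈ (C.map φ.toEmbedding : Set β) := by simpa using hy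
    rcases hD.2 (by simpa using hx) (by simpa using hy) (fun h => hxy (φ.injective h)) with h | h
    · left; exact φ.le_iff_le.1 h
    · right; exact φ.le_iff_le.1 h
  · intro C _
    rw [card_map]

open Classical in
theorem chains_union {α : Type} [PartialOrder α] (P R : Finset α)
    (hR : ∀ r ∈ R, ∀ s ∈ R, r ≤ s → r = s) (hPR : ∀ p ∈ P, ∀ r ∈ R, ¬ p ≤ r) :
    chains (P ∪ R) = chains P ∪
      R.biUnion fun r => (chains (P.filter (r ≤ ·))).image (insert r) := by
  ext C
  simp only [mem_union, mem_biUnion, mem_image, mem_chains]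
  constructor
  · rintro ⟨h1, h2⟩
    by_cases h : C ⊆ P
    · exact Or.inl ⟨h, h2⟩
    · right
      obtain ⟨r, hrC, hrP⟩ := Finset.not_subset.1 h
      have hrR : r ∈ R := (mem_union.1 (h1 hrC)).resolve_left hrP
      refine ⟨r, hrR, C.erase r, ⟨?_, ?_⟩, insert_erase hrC⟩
      · intro x hx
        rw [mem_erase] at hx
        have hcomp := h2 (mem_coe.2 hx.2) (mem_coe.2 hrC) hx.1
        rw [mem_filter]
        rcases mem_union.1 (h1 hx.2) with h3 | h3
        · refine ⟨h3, ?_⟩
          rcases hcomp with h4 | h4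
          · exact absurd h4 (hPR x h3 r hrR)
          · exact h4
        · exfalso
          rcases hcomp with h4 | h4
          · exact hx.1 (hR x h3 r hrR h4)
          · exact hx.1 (hR r hrR x h3 h4).symm
      · refine h2.mono ?_
        intro x hx
        exact mem_coe.2 (mem_of_mem_erase (mem_coe.1 hx))
  · rintro (⟨h1, h2⟩ | ⟨r, hr, D, ⟨h1, h2⟩, rfl⟩)
    · exact ⟨h1.trans subset_union_left, h2⟩
    · refine ⟨?_, ?_⟩
      · intro x hx
        rcases mem_insert.1 hx with rfl | hx
        · exact mem_union_right _ hr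
        · exact mem_union_left _ (mem_filter.1 (h1 hx)).1
      · rw [coe_insert]
        apply h2.insert
        intro x hx _
        left
        exact (mem_filter.1 (h1 (mem_coe.1 hx))).2

open Classical in
theorem chi_union {α : Type} [PartialOrder α] (P R : Finset α)
    (hR : ∀ r ∈ R, ∀ s ∈ R, r ≤ s → r = s) (hPR : ∀ p ∈ P, ∀ r ∈ R, ¬ p ≤ r) :
    chi (P ∪ R) = chi P - ∑ r ∈ R, chi (P.filter (r ≤ ·)) := by
  have hdisj : ∀ r ∈ R, r ∉ P := fun r hr hrP => hPR r hrP r hr le_rfl
  unfold chi
  rw [chains_union P R hR hPR, sum_union, sum_biUnion, sub_eq_add_neg, ← sum_neg_distrib]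
  · congr 1
    refine Finset.sum_congr rfl fun r hr => ?_
    rw [sum_image]
    · rw [← sum_neg_distrib]
      refine Finset.sum_congr rfl fun C hC => ?_
      rw [mem_chains] at hC
      have : r ∉ C := fun h => hdisj r hr (mem_filter.1 (hC.1 h)).1
      rw [card_insert_of_notMem this, pow_succ]
      ring
    · intro C hC D hD h
      rw [mem_coe, mem_chains] at hC hD
      have h1 : r ∉ C := fun h => hdisj r hr (mem_filter.1 (hC.1 h)).1
      have h2 : r ∉ D := fun h => hdisj r hr (mem_filter.1 (hD.1 h)).1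
      have h3 : insert r C = insert r D := h
      rw [← erase_insert h1, h3, erase_insert h2]
  · intro r hr s hs hrs
    rw [Function.onFun, Finset.disjoint_left]
    intro C hC hC'
    obtain ⟨D, hD, rfl⟩ := mem_image.1 hC
    obtain ⟨D', hD', h⟩ := mem_image.1 hC'
    rw [mem_chains] at hD'
    have h1 : r ∈ insert s D' := by rw [h]; exact mem_insert_self _ _
    rcases mem_insert.1 h1 with h2 | h2
    · exact hrs h2
    · exact hdisj r hr (mem_filter.1 (hD'.1 h2)).1
  · rw [Finset.disjoint_left]
    intro C hC hC'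
    rw [mem_biUnion] at hC'
    obtain ⟨r, hr, hC'⟩ := hC'
    obtain ⟨D, hD, rfl⟩ := mem_image.1 hC'
    rw [mem_chains] at hC
    exact hdisj r hr (hC.1 (mem_insert_self _ _))

end Pool.Agent.Helper293.EvenBlocks
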