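import Mathlib

set_option autoImplicit false

namespace Pool.Agent.Helper293.EvenBlocks

open Finset

/-- coefficients of the symmetric functions: `S k a b` is the coefficient of `E^a O^b` -/
def S : ℕ → ℕ → ℕ → ℤ
  | 0, a, b => if a = 1 ∧ b = 0 then 1 else 0
  | k + 1, a, b =>
    (if b % 2 = 0 ∧ a + b ≤ 2 * (k + 1) then
      ∑ i ∈ range (k + 2), S k i (2 * (k + 1) - 2 * i) *
        ((Nat.choose i (2 * (k + 1) - (a + b)) * Nat.choose (a + b - i) b : ℕ) : ℤ) else 0)
      - S k a b

/-- `B k i` is the number `b_i(k+1)` -/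
def B (k i : ℕ) : ℤ := S k i (2 * (k + 1) - 2 * i)

/-- the first part of the recursion -/
def W (k a b : ℕ) : ℤ :=
  if b % 2 = 0 ∧ a + b ≤ 2 * (k + 1) then
      ∑ i ∈ range (k + 2), B k i *
        ((Nat.choose i (2 * (k + 1) - (a + b)) * Nat.choose (a + b - i) b : ℕ) : ℤ) else 0

theorem S_zero (a b : ℕ) : S 0 a b = if a = 1 ∧ b = 0 then 1 else 0 := rfl

theorem S_succ (k a b : ℕ) : S (k + 1) a b = W k a b - S k a b := rfl

theorem S_odd (k a b : ℕ) (hb : b % 2 = 1) : S k a b = 0 := by
  induction k generalizing a b with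
  | zero => rw [S_zero, if_neg]; omega
  | succ k ih => rw [S_succ, ih a b hb, W, if_neg (by omega)]; rfl

/-- degree bound -/
theorem S_deg (k a b : ℕ) (h : 2 * k + 1 < a + b) : S k a b = 0 := by
  induction k generalizing a b with
  | zero => rw [S_zero, if_neg]; omega
  | succ k ih => rw [S_succ, ih a b (by omega), W, if_neg (by omega)]; rfl

theorem W_low (k a b : ℕ) (h : 2 * a + b < 2 * (k + 1)) : W k a b = 0 := by
  unfold W
  split_ifs with h1
  · apply Finset.sum_eq_zero
    intro i hir
    rw [Finset.mem_range] at hir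
    rw [mul_eq_zero]; right
    rw [Nat.cast_eq_zero, mul_eq_zero]
    by_cases hi : i < 2 * (k + 1) - (a + b)
    · left; exact Nat.choose_eq_zero_of_lt hi
    · right; exact Nat.choose_eq_zero_of_lt (by omega)
  · rfl

theorem W_eq (k a b : ℕ) (h : 2 * a + b = 2 * (k + 1)) : W k a b = S k a b := by
  unfold W
  rw [if_pos (by omega), Finset.sum_eq_single a]
  · rw [show 2 * (k + 1) - (a + b) = a by omega, Nat.choose_self, show a + b - a = b by omega,
      Nat.choose_self, B, show 2 * (k + 1) - 2 * a = b by omega]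
    simp
  · intro i hir hi
    rw [Finset.mem_range] at hir
    rw [mul_eq_zero]; right
    rw [Nat.cast_eq_zero, mul_eq_zero]
    by_cases hi' : i < 2 * (k + 1) - (a + b)
    · left; exact Nat.choose_eq_zero_of_lt hi'
    · right; exact Nat.choose_eq_zero_of_lt (by omega)
  · intro ha
    exact absurd (Finset.mem_range.2 (by omega)) ha

/-- support bound -/
theorem S_low (k a b : ℕ) (h : 2 * a + b < 2 * (k + 1)) : S k a b = 0 := by
  induction k generalizing a b with
  | zero => rw [S_zero, if_neg]; omega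
  | succ k ih =>
    rcases Nat.even_or_odd' b with ⟨c, hc | hc⟩
    · rw [S_succ]
      rcases lt_or_ge (2 * a + b) (2 * (k + 1)) with h1 | h1
      · rw [W_low k a b h1, ih a b h1]; rfl
      · rw [W_eq k a b (by omega), sub_self]
    · exact S_odd _ _ _ (by omega)

theorem B_S (k a b : ℕ) (h : 2 * a + b = 2 * (k + 1)) : S k a b = B k a := by
  rw [B, show 2 * (k + 1) - 2 * a = b by omega]

end Pool.Agent.Helper293.EvenBlocks
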