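import Pool.Agent.Helper293.EvenBlocks.Glue

set_option autoImplicit false
set_option linter.unusedSectionVars false

namespace Pool.Agent.Helper293.EvenBlocks

open Finset

/-- number of invariant maps with prescribed fibre sizes -/
noncomputable def cnt {X ι : Type} (σ : Equiv.Perm X) (p : ι → ℕ → Prop) : ℕ :=
  Nat.card {f : X → ι // (∀ x, f (σ x) = f x) ∧ ∀ i, p i (Nat.card {x // f x = i})}

section
variable {X ι : Type} [Fintype X] [DecidableEq X] [Fintype ι] [DecidableEq ι]
  (σ : Equiv.Perm X)

open Classical in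
/-- weight function -/
noncomputable def wp (q : ℕ → Prop) (T : Finset X) : ℤ := if inv σ T ∧ q T.card then 1 else 0

theorem inv_iff_fibres (F : X → ι) :
    (∀ x, F (σ x) = F x) ↔ ∀ i, inv σ (univ.filter fun x => F x = i) := by
  constructor
  · intro h i x
    simp [h x]
  · intro h x
    have := (h (F x) x).2 (by simp)
    simpa using this

theorem natcard_fibre (F : X → ι) (i : ι) :
    Nat.card {x // F x = i} = (univ.filter fun x => F x = i).card := by
  rw [Nat.card_eq_fintype_card, Fintype.card_subtype]

open Classical in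
theorem cnt_eq (p : ι → ℕ → Prop) : (cnt σ p : ℤ) = LL (∏ i, pol (wp σ (p i))) := by
  rw [LL_prod]
  unfold cnt
  rw [Nat.card_eq_fintype_card, Fintype.card_subtype, Finset.card_filter, Nat.cast_sum]
  refine Finset.sum_congr rfl fun F _ => ?_
  by_cases h : (∀ x, F (σ x) = F x) ∧ ∀ i, p i (Nat.card {x // F x = i})
  · rw [if_pos h, Finset.prod_eq_one]
    · simp
    · intro i _
      unfold wp
      rw [if_pos]
      exact ⟨(inv_iff_fibres σ F).1 h.1 i, by rw [← natcard_fibre]; exact h.2 i⟩
  · rw [if_neg h]
    symm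
    by_cases h1 : ∀ x, F (σ x) = F x
    · have h2 : ∃ i, ¬ p i (Nat.card {x // F x = i}) := by
        by_contra h3
        push Not at h3
        exact h ⟨h1, h3⟩
      obtain ⟨i, hi⟩ := h2
      rw [Nat.cast_zero]
      apply Finset.prod_eq_zero (mem_univ i)
      unfold wp
      rw [if_neg]
      rintro ⟨_, h3⟩
      rw [← natcard_fibre] at h3
      exact hi h3
    · rw [inv_iff_fibres] at h1
      push Not at h1
      obtain ⟨i, hi⟩ := h1
      rw [Nat.cast_zero]
      apply Finset.prod_eq_zero (mem_univ i)
      unfold wp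
      rw [if_neg]
      rintro ⟨h3, _⟩
      exact hi h3

/-- the four basic series -/
noncomputable def pE : MvPolynomial X ℤ := pol (wp σ fun n => n ≠ 0 ∧ Even n)
noncomputable def pO : MvPolynomial X ℤ := pol (wp σ fun n => Odd n)
noncomputable def pI : MvPolynomial X ℤ := pol (wp σ fun _ => True)
noncomputable def pN : MvPolynomial X ℤ := pol (wp σ fun n => n ≠ 0)

open Classical in
/-- weight of the relations with two classes -/
noncomputable def wV (T : Finset X) : ℤ := if inv σ T then
  ((T.powerset.filter fun A => inv σ A ∧ A.Nonempty ∧ Even A.card).card : ℤ) else 0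

noncomputable def pV : MvPolynomial X ℤ := pol (wV σ)

theorem pN_eq : pN σ = pE σ + pO σ := by
  unfold pN pE pO pol
  rw [← Finset.sum_add_distrib]
  refine Finset.sum_congr rfl fun T _ => ?_
  rw [← map_add]
  congr 1
  unfold wp
  by_cases h : inv σ T
  · rcases Nat.even_or_odd T.card with h1 | h1
    · have h2 : ¬ Odd T.card := Nat.not_odd_iff_even.2 h1
      simp [h, h1, h2]
    · have h2 : ¬ Even T.card := Nat.not_even_iff_odd.2 h1
      have h3 : T ≠ ∅ := by rintro rfl; simp at h1
      simp [h, h1, h2, h3]
  · simp [h]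

theorem pI_eq : pI σ = 1 + (pE σ + pO σ) := by
  rw [← pN_eq]
  unfold pI pN pol
  have h1 : (1 : MvPolynomial X ℤ) = ∑ T : Finset X,
      MvPolynomial.monomial (ind T) (if T = ∅ then (1 : ℤ) else 0) := by
    rw [Finset.sum_eq_single ∅]
    · have : ind (∅ : Finset X) = 0 := by
        ext x
        rw [ind_apply]; simp
      rw [this]; simp
    · intro T _ hT
      simp [hT]
    · simp
  rw [h1, ← Finset.sum_add_distrib]
  refine Finset.sum_congr rfl fun T _ => ?_
  rw [← map_add]
  congr 1
  unfold wp
  by_cases h : T = ∅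
  · subst h
    have : inv σ (∅ : Finset X) := fun x => by simp
    simp [this]
  · have h2 : T.card ≠ 0 := by rw [Ne, card_eq_zero]; exact h
    by_cases hT : inv σ T
    · simp [h, h2, hT]
    · simp [h, hT]

/-- the product of monomials under the functional -/
theorem LL_mono_mono (A B : Finset X) (a b : ℤ) (P : MvPolynomial X ℤ) :
    LL (MvPolynomial.monomial (ind A) a * MvPolynomial.monomial (ind B) b * P) =
    if Disjoint A B then a * b * LL (MvPolynomial.monomial (ind (A ∪ B)) 1 * P) else 0 := by
  rw [MvPolynomial.monomial_mul]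
  unfold LL
  rw [MvPolynomial.coeff_monomial_mul', MvPolynomial.coeff_monomial_mul']
  split_ifs with h1 h2 h3 h4 h5
  · have : ind A + ind B = ind (A ∪ B) := by
      ext x
      rw [Finsupp.add_apply, ind_apply, ind_apply, ind_apply]
      have := fun hA : x ∈ A => Finset.disjoint_left.1 h2 hA
      by_cases hA : x ∈ A
      · have hB := this hA
        simp [hA, hB]
      · simp [hA]
    rw [this, one_mul]
  · exfalso
    apply h3
    intro x
    rw [ind_apply, ind_apply]
    simp only [mem_univ, if_true]
    split_ifs <;> norm_num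
  · exfalso
    rw [Finset.not_disjoint_iff] at h2
    obtain ⟨x, hA, hB⟩ := h2
    have := h1 x
    rw [Finsupp.add_apply, ind_apply, ind_apply, ind_apply, if_pos hA, if_pos hB] at this
    simp at this
  · exfalso
    apply h1
    intro x
    rw [Finsupp.add_apply, ind_apply, ind_apply, ind_apply]
    have := fun hA : x ∈ A => Finset.disjoint_left.1 h4 hA
    by_cases hA : x ∈ A
    · have hB := this hA
      simp [hA, hB]
    · simp only [hA, if_false, mem_univ, if_true]
      split_ifs <;> norm_num
  · ring
  · rfl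

theorem inv_sdiff {A T : Finset X} (hA : inv σ A) (hAT : A ⊆ T) : inv σ (T \ A) ↔ inv σ T := by
  constructor
  · intro h x
    have h1 := h x
    have h2 := hA x
    rw [mem_sdiff, mem_sdiff] at h1
    have h3 : σ x ∈ A → σ x ∈ T := fun h => hAT h
    have h4 : x ∈ A → x ∈ T := fun h => hAT h
    tauto
  · intro h x
    rw [mem_sdiff, mem_sdiff, h x, hA x]

open Classical in
theorem LL_pV (P : MvPolynomial X ℤ) : LL (pV σ * P) = LL (pE σ * pI σ * P) := by
  have h1 : LL (pE σ * pI σ * P) = ∑ A : Finset X, ∑ B : Finset X,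
      if Disjoint A B then wp σ (fun n => n ≠ 0 ∧ Even n) A * wp σ (fun _ => True) B *
        LL (MvPolynomial.monomial (ind (A ∪ B)) 1 * P) else 0 := by
    unfold pE pI pol
    rw [Finset.sum_mul_sum, Finset.sum_mul, LL_sum]
    refine Finset.sum_congr rfl fun A _ => ?_
    rw [Finset.sum_mul, LL_sum]
    refine Finset.sum_congr rfl fun B _ => ?_
    rw [LL_mono_mono]
  have h2 : LL (pV σ * P) = ∑ T : Finset X, wV σ T *
      LL (MvPolynomial.monomial (ind T) 1 * P) := by
    unfold pV pol
    rw [Finset.sum_mul, LL_sum]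
    refine Finset.sum_congr rfl fun T _ => ?_
    have : MvPolynomial.monomial (ind T) (wV σ T) =
      (wV σ T) • (MvPolynomial.monomial (ind T) (1 : ℤ)) := by
      rw [MvPolynomial.smul_monomial]; simp
    rw [this, smul_mul_assoc]
    unfold LL
    rw [MvPolynomial.coeff_smul]
    rfl
  rw [h1, h2]
  have h3 : ∀ A : Finset X, (∑ B : Finset X,
      if Disjoint A B then wp σ (fun n => n ≠ 0 ∧ Even n) A * wp σ (fun _ => True) B *
        LL (MvPolynomial.monomial (ind (A ∪ B)) 1 * P) else 0) =
      ∑ T : Finset X, if A ⊆ T then wp σ (fun n => n ≠ 0 ∧ Even n) A *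
        wp σ (fun _ => True) (T \ A) * LL (MvPolynomial.monomial (ind T) 1 * P) else 0 := by
    intro A
    rw [← Finset.sum_filter, ← Finset.sum_filter]
    refine Finset.sum_bij' (fun B _ => A ∪ B) (fun T _ => T \ A) ?_ ?_ ?_ ?_ ?_
    · intro B hB
      simp
    · intro T hT
      rw [mem_filter] at hT ⊢
      exact ⟨mem_univ _, disjoint_sdiff⟩
    · intro B hB
      rw [mem_filter] at hB
      exact union_sdiff_cancel_left hB.2
    · intro T hT
      rw [mem_filter] at hT
      exact union_sdiff_of_subset hT.2
    · intro B hB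
      rw [mem_filter] at hB
      rw [union_sdiff_cancel_left hB.2]
  simp_rw [h3]
  rw [Finset.sum_comm]
  refine Finset.sum_congr rfl fun T _ => ?_
  have h4 : ∀ A : Finset X, (if A ⊆ T then wp σ (fun n => n ≠ 0 ∧ Even n) A *
        wp σ (fun _ => True) (T \ A) * LL (MvPolynomial.monomial (ind T) 1 * P) else 0) =
      (if inv σ T then (if A ⊆ T ∧ inv σ A ∧ A.Nonempty ∧ Even A.card then 1 else 0) else 0) *
        LL (MvPolynomial.monomial (ind T) 1 * P) := by
    intro A
    by_cases hAT : A ⊆ T
    · rw [if_pos hAT]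
      congr 1
      by_cases hA : inv σ A
      · unfold wp
        have e := inv_sdiff σ hA hAT
        by_cases hT : inv σ T
        · simp only [hA, hT, hAT, e, true_and, and_true, if_true, mul_one, card_ne_zero]
        · simp [hT, e]
      · unfold wp
        simp [hA]
    · rw [if_neg hAT]
      simp [hAT]
  simp_rw [h4]
  rw [← Finset.sum_mul]
  congr 1
  unfold wV
  split_ifs with hT
  · rw [Finset.card_filter, Nat.cast_sum, ← Finset.sum_filter_add_sum_filter_not univ (fun A => A ⊆ T)]
    rw [Finset.sum_eq_zero (s := univ.filter fun A => ¬ A ⊆ T), add_zero]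
    · have : (univ.filter fun A => A ⊆ T) = T.powerset := by
        ext A; simp
      rw [this]
      refine Finset.sum_congr rfl fun A hA => ?_
      rw [mem_powerset] at hA
      simp [hA]
    · intro A hA
      rw [mem_filter] at hA
      simp [hA.2]
  · simp

theorem LL_pV_pow (i : ℕ) (P : MvPolynomial X ℤ) :
    LL (pV σ ^ i * P) = LL ((pE σ * pI σ) ^ i * P) := by
  induction i generalizing P with
  | zero => simp
  | succ i ih =>
    rw [pow_succ, mul_assoc, ih, pow_succ]
    have : (pE σ * pI σ) ^ i * (pV σ * P) = pV σ * ((pE σ * pI σ) ^ i * P) := by ring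
    have h2 : pE σ * pI σ * ((pE σ * pI σ) ^ i * P) =
      (pE σ * pI σ) ^ i * (pE σ * pI σ) * P := by ring
    rw [this, LL_pV, h2]

end

end Pool.Agent.Helper293.EvenBlocks
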