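import Pool.Agent.Helper293.EvenBlocks.Chains

set_option autoImplicit false

namespace Pool.Agent.Helper293.EvenBlocks

open Finset

instance finiteSetoid {X : Type} [Finite X] : Finite (Setoid X) :=
  Finite.of_injective (fun (r : Setoid X) (x y : X) => r x y) (by
    intro r s h
    ext x y
    exact iff_of_eq (congrFun (congrFun h x) y))

noncomputable instance fintypeSetoid {X : Type} [Finite X] : Fintype (Setoid X) :=
  Fintype.ofFinite _

/-- the equivalence relation is fixed by the permutation -/
def Fx {X : Type} (σ : Equiv.Perm X) (r : Setoid X) : Prop := ∀ x y, r (σ x) (σ y) ↔ r x y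

/-- the induced permutation of the quotient -/
def qperm {X : Type} (σ : Equiv.Perm X) (r : Setoid X) (h : Fx σ r) : Equiv.Perm (Quotient r) :=
  Quotient.congr σ fun x y => (h x y).symm

theorem qperm_mk {X : Type} (σ : Equiv.Perm X) (r : Setoid X) (h : Fx σ r) (x : X) :
    qperm σ r h (Quotient.mk r x) = Quotient.mk r (σ x) := rfl

/-- pulling back along the quotient map -/
def pull {X : Type} (r : Setoid X) : Setoid (Quotient r) ↪o Setoid X where
  toFun s := Setoid.comap (Quotient.mk r) s
  inj' := by
    intro s t h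
    ext x y
    induction x using Quotient.inductionOn with | _ x => ?_
    induction y using Quotient.inductionOn with | _ y => ?_
    exact Setoid.ext_iff.1 h x y
  map_rel_iff' := by
    intro s t
    constructor
    · intro h x y hxy
      induction x using Quotient.inductionOn with | _ x => ?_
      induction y using Quotient.inductionOn with | _ y => ?_
      exact h hxy
    · intro h x y hxy
      exact h hxy

theorem pull_rel {X : Type} (r : Setoid X) (s : Setoid (Quotient r)) (x y : X) :
    pull r s x y ↔ s (Quotient.mk r x) (Quotient.mk r y) := Iff.rfl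

theorem le_pull {X : Type} (r : Setoid X) (s : Setoid (Quotient r)) : r ≤ pull r s := by
  intro x y h
  rw [pull_rel, Quotient.sound h]

theorem exists_pull {X : Type} (r t : Setoid X) (h : r ≤ t) : ∃ s, pull r s = t := by
  refine ⟨(Setoid.correspondence r) ⟨t, h⟩, ?_⟩
  ext x y
  rfl

theorem card_pull {X : Type} (r : Setoid X) (s : Setoid (Quotient r)) :
    Nat.card (Quotient (pull r s)) = Nat.card (Quotient s) := by
  apply Nat.card_congr
  refine Equiv.ofBijective (Quotient.map (Quotient.mk r) fun x y h => h) ⟨?_, ?_⟩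
  · intro x y h
    induction x using Quotient.inductionOn with | _ x => ?_
    induction y using Quotient.inductionOn with | _ y => ?_
    have h' : Quotient.mk s (Quotient.mk r x) = Quotient.mk s (Quotient.mk r y) := h
    have h2 : s (Quotient.mk r x) (Quotient.mk r y) := Quotient.exact h'
    exact Quotient.sound h2
  · intro y
    induction y using Quotient.inductionOn with | _ y => ?_
    induction y using Quotient.inductionOn with | _ y => ?_
    exact ⟨Quotient.mk _ y, rfl⟩

theorem fx_pull {X : Type} (σ : Equiv.Perm X) (r : Setoid X) (h : Fx σ r)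
    (s : Setoid (Quotient r)) : Fx σ (pull r s) ↔ Fx (qperm σ r h) s := by
  constructor
  · intro h1 x y
    induction x using Quotient.inductionOn with | _ x => ?_
    induction y using Quotient.inductionOn with | _ y => ?_
    exact h1 x y
  · intro h1 x y
    exact h1 (Quotient.mk r x) (Quotient.mk r y)

theorem card_quot_le {X : Type} [Finite X] {r s : Setoid X} (h : r ≤ s) :
    Nat.card (Quotient s) ≤ Nat.card (Quotient r) := by
  apply Nat.card_le_card_of_surjective (Quotient.map id h)
  intro y
  induction y using Quotient.inductionOn with | _ y => ?_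
  exact ⟨Quotient.mk _ y, rfl⟩

theorem eq_of_le_card {X : Type} [Finite X] {r s : Setoid X} (h : r ≤ s)
    (hc : Nat.card (Quotient r) = Nat.card (Quotient s)) : r = s := by
  apply le_antisymm h
  have hsurj : Function.Surjective (Quotient.map id h : Quotient r → Quotient s) := by
    intro y
    induction y using Quotient.inductionOn with | _ y => ?_
    exact ⟨Quotient.mk _ y, rfl⟩
  have hinj : Function.Injective (Quotient.map id h : Quotient r → Quotient s) := by
    have := (Nat.bijective_iff_surjective_and_card (Quotient.map id h : Quotient r → Quotient s)).2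
      ⟨hsurj, hc⟩
    exact this.1
  intro x y hxy
  have : (Quotient.map id h : Quotient r → Quotient s) (Quotient.mk _ x) =
    (Quotient.map id h : Quotient r → Quotient s) (Quotient.mk _ y) := Quotient.sound hxy
  exact Quotient.exact (hinj this)

open Classical in
/-- fixed relations with `2, 4, ..., 2k` classes -/
noncomputable def PS {X : Type} [Finite X] (σ : Equiv.Perm X) (k : ℕ) : Finset (Setoid X) :=
  univ.filter fun r => Fx σ r ∧ ∃ j, 1 ≤ j ∧ j ≤ k ∧ Nat.card (Quotient r) = 2 * j

open Classical in
/-- fixed relations with `2k` classes -/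
noncomputable def RS {X : Type} [Finite X] (σ : Equiv.Perm X) (k : ℕ) : Finset (Setoid X) :=
  univ.filter fun r => Fx σ r ∧ Nat.card (Quotient r) = 2 * k

theorem mem_PS {X : Type} [Finite X] {σ : Equiv.Perm X} {k : ℕ} {r : Setoid X} :
    r ∈ PS σ k ↔ Fx σ r ∧ ∃ j, 1 ≤ j ∧ j ≤ k ∧ Nat.card (Quotient r) = 2 * j := by
  classical
  unfold PS; simp

theorem mem_RS {X : Type} [Finite X] {σ : Equiv.Perm X} {k : ℕ} {r : Setoid X} :
    r ∈ RS σ k ↔ Fx σ r ∧ Nat.card (Quotient r) = 2 * k := by
  classical
  unfold RS; simp

open Classical in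
theorem chi_PS_succ {X : Type} [Finite X] (σ : Equiv.Perm X) (k : ℕ) :
    chi (PS σ (k + 1)) = chi (PS σ k) -
      ∑ r ∈ (RS σ (k + 1)).attach, chi (PS (qperm σ r.1 (mem_RS.1 r.2).1) k) := by
  have h1 : PS σ (k + 1) = PS σ k ∪ RS σ (k + 1) := by
    ext r
    rw [mem_union, mem_PS, mem_PS, mem_RS]
    constructor
    · rintro ⟨h1, j, h2, h3, h4⟩
      by_cases h5 : j = k + 1
      · right; exact ⟨h1, by rw [h4, h5]⟩
      · left; exact ⟨h1, j, h2, by omega, h4⟩
    · rintro (⟨h1, j, h2, h3, h4⟩ | ⟨h1, h2⟩)
      · exact ⟨h1, j, h2, by omega, h4⟩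
      · exact ⟨h1, k + 1, by omega, le_refl _, h2⟩
  rw [h1, chi_union]
  · congr 1
    rw [← Finset.sum_attach]
    refine Finset.sum_congr rfl fun r _ => ?_
    obtain ⟨r, hr⟩ := r
    have hr' := mem_RS.1 hr
    rw [← chi_map (pull r)]
    congr 1
    ext t
    rw [mem_filter, mem_map, mem_PS]
    constructor
    · rintro ⟨⟨h1, j, h2, h3, h4⟩, h5⟩
      obtain ⟨s, rfl⟩ := exists_pull r t h5
      refine ⟨s, ?_, rfl⟩
      rw [mem_PS]
      exact ⟨(fx_pull σ r hr'.1 s).1 h1, j, h2, h3, by rw [← card_pull, h4]⟩
    · rintro ⟨s, hs, rfl⟩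
      rw [mem_PS] at hs
      obtain ⟨h1, j, h2, h3, h4⟩ := hs
      exact ⟨⟨(fx_pull σ r hr'.1 s).2 h1, j, h2, h3, by rw [← h4]; exact card_pull r s⟩,
        le_pull r s⟩
  · intro r hr s hs hrs
    rw [mem_RS] at hr hs
    exact eq_of_le_card hrs (by rw [hr.2, hs.2])
  · intro p hp r hr hpr
    rw [mem_PS] at hp
    rw [mem_RS] at hr
    obtain ⟨-, j, h2, h3, h4⟩ := hp
    have := card_quot_le hpr
    omega

end Pool.Agent.Helper293.EvenBlocks
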