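import Pool.Agent.Helper293.EvenBlocks.TwoClass

set_option autoImplicit false
set_option linter.unusedSectionVars false

namespace Pool.Agent.Helper293.EvenBlocks

open Finset

section
variable {X ι : Type} [Fintype X] [DecidableEq X] [Fintype ι] [DecidableEq ι]
  (σ : Equiv.Perm X)

/-- gluing relations on the fibres -/
def glue (F : X → ι) (s : (i : ι) → Setoid {x // F x = i}) : Setoid X where
  r x y := ∃ h : F y = F x, (s (F x)) ⟨x, rfl⟩ ⟨y, h⟩
  iseqv := by
    refine ⟨fun x => ⟨rfl, (s (F x)).refl _⟩, ?_, ?_⟩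
    · rintro x y ⟨h, h1⟩
      refine ⟨h.symm, ?_⟩
      have key : ∀ (i : ι) (hi : F y = i) (h' : F x = i), (s i) ⟨x, h'⟩ ⟨y, hi⟩ →
          (s (F y)) ⟨y, rfl⟩ ⟨x, by rw [h', hi]⟩ := by
        intro i hi h' h2
        subst hi
        exact (s (F y)).symm h2
      exact key (F x) h rfl h1
    · rintro x y z ⟨h, h1⟩ ⟨h', h2⟩
      refine ⟨h'.trans h, ?_⟩
      have key : ∀ (i : ι) (hi : F x = i) (hy : F y = i) (hz : F z = F y),
          (s i) ⟨x, hi⟩ ⟨y, hy⟩ → (s (F y)) ⟨y, rfl⟩ ⟨z, hz⟩ → (s i) ⟨x, hi⟩ ⟨z, by rw [hz, hy]⟩ := by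
        intro i hi hy hz a b
        subst hy
        exact (s (F y)).trans a b
      exact key (F x) rfl h h' h1 h2

theorem glue_rel (F : X → ι) (s : (i : ι) → Setoid {x // F x = i}) (i : ι) (x y : X)
    (hx : F x = i) (hy : F y = i) : glue F s x y ↔ s i ⟨x, hx⟩ ⟨y, hy⟩ := by
  subst hx
  constructor
  · rintro ⟨_, h⟩; exact h
  · intro h; exact ⟨hy, h⟩

theorem glue_le (F : X → ι) (s : (i : ι) → Setoid {x // F x = i}) : glue F s ≤ Setoid.ker F := by
  rintro x y ⟨h, _⟩
  exact h.symm

/-- restriction of a relation to a fibre -/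
def res (F : X → ι) (r : Setoid X) (i : ι) : Setoid {x // F x = i} :=
  Setoid.comap Subtype.val r

theorem res_glue (F : X → ι) (s : (i : ι) → Setoid {x // F x = i}) (i : ι) :
    res F (glue F s) i = s i := by
  ext x y
  exact glue_rel F s i x.1 y.1 x.2 y.2

theorem glue_res (F : X → ι) (r : Setoid X) (h : r ≤ Setoid.ker F) :
    glue F (res F r) = r := by
  ext x y
  constructor
  · rintro ⟨_, h1⟩
    exact h1
  · intro h1
    exact ⟨(h h1).symm, h1⟩

/-- the permutation of a fibre -/
def fperm (F : X → ι) (hF : ∀ x, F (σ x) = F x) (i : ι) : Equiv.Perm {x // F x = i} :=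
  σ.subtypePerm fun x => by rw [hF]

theorem fx_glue (F : X → ι) (hF : ∀ x, F (σ x) = F x) (s : (i : ι) → Setoid {x // F x = i}) :
    Fx σ (glue F s) ↔ ∀ i, Fx (fperm σ F hF i) (s i) := by
  constructor
  · intro h i x y
    have := h x.1 y.1
    rw [glue_rel F s i x.1 y.1 x.2 y.2,
      glue_rel F s i (σ x.1) (σ y.1) (by rw [hF]; exact x.2) (by rw [hF]; exact y.2)] at this
    exact this
  · intro h x y
    by_cases hxy : F y = F x
    · have := h (F x) ⟨x, rfl⟩ ⟨y, hxy⟩
      rw [glue_rel F s (F x) x y rfl hxy, glue_rel F s (F x) (σ x) (σ y) (hF x)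
        ((hF y).trans hxy)]
      exact this
    · constructor
      · rintro ⟨h1, _⟩
        rw [hF, hF] at h1
        exact absurd h1 hxy
      · rintro ⟨h1, _⟩
        exact absurd h1 hxy

/-- the number of ways to choose a relation inside the fibres -/
theorem card_glue (F : X → ι) (hF : ∀ x, F (σ x) = F x) (n : ι → ℕ) :
    Nat.card {r : Setoid X // Fx σ r ∧ r ≤ Setoid.ker F ∧
      ∀ i, Nat.card (Quotient (res F r i)) = n i} =
    ∏ i, Nat.card {s : Setoid {x // F x = i} // Fx (fperm σ F hF i) s ∧
      Nat.card (Quotient s) = n i} := by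
  rw [← Nat.card_pi]
  apply Nat.card_congr
  exact
    { toFun := fun r i => ⟨res F r.1 i, (by
        have h1 := glue_res F r.1 r.2.2.1
        have h2 := r.2.1
        rw [← h1] at h2
        exact (fx_glue σ F hF _).1 h2 i), r.2.2.2 i⟩
      invFun := fun s => ⟨glue F (fun i => (s i).1), (fx_glue σ F hF _).2 fun i => (s i).2.1,
        glue_le F _, fun i => by rw [res_glue]; exact (s i).2.2⟩
      left_inv := fun r => Subtype.ext (glue_res F r.1 r.2.2.1)
      right_inv := fun s => by
        funext i
        exact Subtype.ext (res_glue F _ i) }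

/-- functions on the quotient versus functions on the set -/
theorem card_lift (r : Setoid X) (h : Fx σ r) (n : ι → ℕ) :
    Nat.card {f : Quotient r → ι // (∀ q, f (qperm σ r h q) = f q) ∧
      ∀ i, Nat.card {q // f q = i} = n i} =
    Nat.card {F : X → ι // (∀ x, F (σ x) = F x) ∧ r ≤ Setoid.ker F ∧
      ∀ i, Nat.card (Quotient (res F r i)) = n i} := by
  apply Nat.card_congr
  have key : ∀ (f : Quotient r → ι) (i : ι),
      Nat.card {q // f q = i} = Nat.card (Quotient (res (fun x => f (Quotient.mk r x)) r i)) := by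
    intro f i
    exact Nat.card_congr (Equiv.subtypeQuotientEquivQuotientSubtype
      (fun x => f (Quotient.mk r x) = i) (s₂ := res (fun x => f (Quotient.mk r x)) r i)
      (fun q => f q = i) (fun a => Iff.rfl) (fun x y => Iff.rfl))
  exact
    { toFun := fun f => ⟨fun x => f.1 (Quotient.mk r x), fun x => f.2.1 (Quotient.mk r x),
        fun x y hxy => congrArg f.1 (Quotient.sound hxy), fun i => by
          rw [← key f.1 i]; exact f.2.2 i⟩
      invFun := fun F => ⟨Quotient.lift F.1 fun x y hxy => F.2.2.1 hxy, fun q => by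
          induction q using Quotient.inductionOn with | _ x => ?_
          exact F.2.1 x, fun i => by
          rw [key]; exact F.2.2.2 i⟩
      left_inv := fun f => by
        apply Subtype.ext
        funext q
        induction q using Quotient.inductionOn with | _ x => ?_
        rfl
      right_inv := fun F => rfl }

end

end Pool.Agent.Helper293.EvenBlocks
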