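import Mathlib

set_option autoImplicit false

namespace Pool.Agent.Helper293.EvenBlocks

theorem ch1 (b η : ℕ) (h : 1 ≤ b + η) :
    (b + η - 1).choose b * (b + η) = (b + η).choose b * η := by
  obtain ⟨s, hs⟩ : ∃ s, b + η = s + 1 := ⟨b + η - 1, by omega⟩
  have := Nat.choose_mul_succ_eq s b
  rw [hs, show s + 1 - 1 = s by omega, this]
  congr 1; omega

theorem ch2 (b η : ℕ) (h : 2 ≤ b + η) (hη : 1 ≤ η) :
    (b + η - 2).choose b * ((b + η) * (b + η - 1)) = (b + η).choose b * (η * (η - 1)) := by
  have h1 := ch1 b η (by omega)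
  have h2 := ch1 b (η - 1) (by omega)
  rw [show b + (η - 1) = b + η - 1 by omega, show b + η - 1 - 1 = b + η - 2 by omega] at h2
  calc (b + η - 2).choose b * ((b + η) * (b + η - 1))
      = ((b + η - 2).choose b * (b + η - 1)) * (b + η) := by ring
    _ = ((b + η - 1).choose b * (η - 1)) * (b + η) := by rw [h2]
    _ = ((b + η - 1).choose b * (b + η)) * (η - 1) := by ring
    _ = ((b + η).choose b * η) * (η - 1) := by rw [h1]
    _ = _ := by ring

theorem ch3 (m δ : ℕ) (h : 1 ≤ δ) :
    (m + δ).choose (m + 2) * ((m + 1) * (m + 2)) = (m + δ).choose m * (δ * (δ - 1)) := by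
  have h1 := Nat.choose_succ_right_eq (m + δ) m
  have h2 := Nat.choose_succ_right_eq (m + δ) (m + 1)
  rw [show m + δ - m = δ by omega] at h1
  rw [show m + δ - (m + 1) = δ - 1 by omega] at h2
  calc (m + δ).choose (m + 2) * ((m + 1) * (m + 2))
      = ((m + δ).choose (m + 1 + 1) * (m + 1 + 1)) * (m + 1) := by ring
    _ = ((m + δ).choose (m + 1) * (δ - 1)) * (m + 1) := by rw [h2]
    _ = ((m + δ).choose (m + 1) * (m + 1)) * (δ - 1) := by ring
    _ = ((m + δ).choose m * δ) * (δ - 1) := by rw [h1]
    _ = _ := by ring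

theorem two_choose (n : ℕ) : 2 * n.choose 2 = n * (n - 1) := by
  rw [Nat.choose_two_right, mul_comm, Nat.div_mul_cancel (Nat.even_mul_pred_self n).two_dvd]

theorem six_choose (n : ℕ) : 6 * (n + 3).choose 3 = (n + 3) * (n + 2) * (n + 1) := by
  have h1 := Nat.add_one_mul_choose_eq (n + 2) 2
  have h2 := two_choose (n + 2)
  rw [show n + 2 - 1 = n + 1 by omega] at h2
  have h3 : (n + 2 + 1) * (n + 2).choose 2 = (n + 3).choose 3 * 3 := h1
  nlinarith

/-- the termwise inequality -/
theorem termwise (m δ η e b : ℕ) (hb : b % 2 = 0) (h1 : b + η = 2 * e + δ) (h2 : 4 ≤ δ + η)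
    (h3 : ¬ (δ = 2 ∧ η = 2 ∧ b = 0)) :
    4 * ((m + δ).choose m * (b + η).choose b) ≤
      (m + δ).choose 2 * ((m + δ).choose (m + 2) * (b + η).choose b) +
      (m + δ) * (2 * e + 1) * ((m + δ + 1).choose (m + 2) * (b + η - 1).choose b) +
      (2 * e).choose 2 * ((m + δ + 2).choose (m + 2) * (b + η - 2).choose b) := by
  set c := (b + η).choose b with hc
  rcases Nat.lt_or_ge δ 4 with hδ | hδ
  · interval_cases δ
    · -- δ = 0
      have hη : 4 ≤ η := by omega
      have k1 : (m + 0).choose m = 1 := by simp
      have k2 : (m + 0 + 2).choose (m + 2) = 1 := by simp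
      rw [k1, k2]
      have k3 := two_choose (2 * e)
      have k4 := ch2 b η (by omega) (by omega)
      rw [← hc, h1] at k4
      simp only [add_zero] at k4
      have k5 : 8 * c ≤ 2 * ((2 * e).choose 2 * (b + η - 2).choose b) := by
        calc 8 * c ≤ c * (η * (η - 1)) := by
              have : 4 * 3 ≤ η * (η - 1) := Nat.mul_le_mul hη (by omega)
              nlinarith
          _ = (2 * e - 2).choose b * (2 * e * (2 * e - 1)) := k4.symm
          _ = 2 * ((2 * e).choose 2 * (2 * e - 2).choose b) := by rw [← k3]; ring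
          _ = _ := by rw [h1, add_zero]
      refine le_trans ?_ (Nat.le_add_left _ _)
      rw [one_mul, one_mul]
      omega
    · -- δ = 1
      have hη : 3 ≤ η := by omega
      have k1 : (m + 1).choose m = m + 1 := by simp
      have k2 : (m + 1 + 1).choose (m + 2) = 1 := by simp
      have k3 : (m + 1 + 2).choose (m + 2) = m + 3 := by
        rw [show m + 1 + 2 = (m + 2) + 1 by ring, Nat.choose_succ_self_right]
      have k4 : (m + 1).choose (m + 2) = 0 := Nat.choose_eq_zero_of_lt (by omega)
      rw [k1, k2, k3, k4]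
      have e1 := ch1 b η (by omega)
      rw [← hc] at e1
      have e2 : (m + 1) * (2 * e + 1) * (1 * (b + η - 1).choose b) = (m + 1) * (c * η) := by
        rw [← e1, h1]; ring
      rw [e2]
      rcases Nat.lt_or_ge η 4 with hη4 | hη4
      · have hη3 : η = 3 := by omega
        subst hη3
        have e3 := ch2 b 3 (by omega) (by omega)
        rw [← hc] at e3
        have e4 := two_choose (2 * e)
        obtain ⟨f, hf⟩ : ∃ f, e = f + 1 := ⟨e - 1, by omega⟩
        subst hf
        rw [h1, show 2 * (f + 1) + 1 - 1 = 2 * (f + 1) by omega,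
          show 2 * (f + 1) + 1 - 2 = 2 * f + 1 by omega] at e3
        rw [show 2 * (f + 1) - 1 = 2 * f + 1 by omega] at e4
        rw [h1, show 2 * (f + 1) + 1 - 2 = 2 * f + 1 by omega]
        set c2 := (2 * f + 1).choose b
        set g := (2 * (f + 1)).choose 2
        have e5 : (m + 1) * c ≤ g * ((m + 3) * c2) := by
          have e6 : ((2 * (f + 1) + 1) * (2 * (f + 1))) * ((m + 1) * c) ≤
              ((2 * (f + 1) + 1) * (2 * (f + 1))) * (g * ((m + 3) * c2)) := by
            calc ((2 * (f + 1) + 1) * (2 * (f + 1))) * ((m + 1) * c)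
                ≤ (2 * (f + 1) * (2 * f + 1)) * (m + 3) * (c * 3) := by
                  have : (2 * (f + 1) + 1) * (m + 1) ≤ (2 * f + 1) * (m + 3) * 3 := by nlinarith
                  calc ((2 * (f + 1) + 1) * (2 * (f + 1))) * ((m + 1) * c)
                      = ((2 * (f + 1) + 1) * (m + 1)) * ((2 * (f + 1)) * c) := by ring
                    _ ≤ ((2 * f + 1) * (m + 3) * 3) * ((2 * (f + 1)) * c) :=
                        Nat.mul_le_mul_right _ this
                    _ = _ := by ring
              _ = (2 * g) * (m + 3) * (c * 3) := by rw [e4]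
              _ = g * (m + 3) * (c * (3 * (3 - 1))) := by ring
              _ = g * (m + 3) * (c2 * ((2 * (f + 1) + 1) * (2 * (f + 1)))) := by rw [e3]
              _ = _ := by ring
          exact Nat.le_of_mul_le_mul_left e6 (by positivity)
        nlinarith
      · have : (m + 1) * (c * 4) ≤ (m + 1) * (c * η) := by gcongr
        nlinarith [Nat.zero_le ((2 * e).choose 2 * ((m + 3) * (b + η - 2).choose b))]
    · -- δ = 2
      have hη : 2 ≤ η := by omega
      have k1 : 2 * (m + 2).choose m = (m + 2) * (m + 1) := by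
        have := two_choose (m + 2)
        rw [show m + 2 - 1 = m + 1 by omega] at this
        rw [← this, Nat.choose_symm_add]
      have k2 : (m + 2).choose (m + 2) = 1 := by simp
      have k3 : (m + 2 + 1).choose (m + 2) = m + 3 := by
        rw [Nat.choose_succ_self_right]
      have k5 : (m + 2).choose 2 = (m + 2).choose m := by rw [Nat.choose_symm_add]
      rw [k2, k3, k5]
      have e1 := ch1 b η (by omega)
      rw [← hc] at e1
      set c1 := (b + η - 1).choose b
      have e2 : 3 * ((m + 2).choose m * c) ≤ (m + 2) * (2 * e + 1) * ((m + 3) * c1) := by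
        have e3 : (2 * (b + η)) * (3 * ((m + 2).choose m * c)) ≤
            (2 * (b + η)) * ((m + 2) * (2 * e + 1) * ((m + 3) * c1)) := by
          have e4 : (m + 1) * (3 * (b + η)) ≤ (2 * (2 * e + 1)) * ((m + 3) * η) := by
            rw [h1]
            rcases Nat.lt_or_ge η 3 with h | h
            · have : η = 2 := by omega
              subst this
              have : 1 ≤ e := by omega
              nlinarith
            · have : (2 * (2 * e + 1)) * ((m + 3) * 3) ≤ (2 * (2 * e + 1)) * ((m + 3) * η) := by
                gcongr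
              nlinarith
          calc (2 * (b + η)) * (3 * ((m + 2).choose m * c))
              = (2 * (m + 2).choose m) * (3 * (b + η)) * c := by ring
            _ = (m + 2) * ((m + 1) * (3 * (b + η))) * c := by rw [k1]; ring
            _ ≤ (m + 2) * ((2 * (2 * e + 1)) * ((m + 3) * η)) * c := by gcongr
            _ = 2 * ((m + 2) * (2 * e + 1) * (m + 3)) * (c * η) := by ring
            _ = 2 * ((m + 2) * (2 * e + 1) * (m + 3)) * (c1 * (b + η)) := by rw [e1]
            _ = _ := by ring
        exact Nat.le_of_mul_le_mul_left e3 (by omega)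
      nlinarith [Nat.zero_le ((2 * e).choose 2 * ((m + 2 + 2).choose (m + 2) *
        (b + η - 2).choose b))]
    · -- δ = 3
      have hη : 1 ≤ η := by omega
      have k1 : 6 * (m + 3).choose m = (m + 3) * (m + 2) * (m + 1) := by
        rw [← six_choose, Nat.choose_symm_add]
      have k2 : (m + 3).choose (m + 2) = m + 3 := by
        rw [show m + 3 = (m + 2) + 1 by ring, Nat.choose_succ_self_right]
      have k3 : 2 * (m + 3 + 1).choose (m + 2) = (m + 4) * (m + 3) := by
        have := two_choose (m + 4)
        rw [show m + 4 - 1 = m + 3 by omega] at this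
        rw [← this, show m + 3 + 1 = (m + 2) + 2 by ring, Nat.choose_symm_add]
      have k4 := two_choose (m + 3)
      rw [show m + 3 - 1 = m + 2 by omega] at k4
      rw [k2]
      have e1 := ch1 b η (by omega)
      rw [← hc] at e1
      set c1 := (b + η - 1).choose b
      set g := (m + 3).choose 2
      set g2 := (m + 3 + 1).choose (m + 2)
      set g3 := (m + 3).choose m
      have e2 : 4 * (g3 * c) ≤ g * ((m + 3) * c) + (m + 3) * (2 * e + 1) * (g2 * c1) := by
        have e3 : (6 * (b + η)) * (4 * (g3 * c)) ≤
            (6 * (b + η)) * (g * ((m + 3) * c) + (m + 3) * (2 * e + 1) * (g2 * c1)) := by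
          have e5 : (b + η) ≤ 3 * (2 * e + 1) * η := by
            rw [h1]
            have : 3 * (2 * e + 1) * 1 ≤ 3 * (2 * e + 1) * η := by gcongr
            omega
          calc (6 * (b + η)) * (4 * (g3 * c)) = (6 * g3) * (4 * (b + η) * c) := by ring
            _ = ((m + 3) * (m + 2) * (m + 1)) * (4 * (b + η) * c) := by rw [k1]
            _ ≤ ((m + 3) * (m + 2)) * (3 * (m + 3) * (b + η) * c) +
                  ((m + 4) * (m + 3) * (m + 3)) * ((b + η) * c) := by
                have : 4 * ((m + 3) * (m + 2) * (m + 1)) ≤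
                  ((m + 3) * (m + 2)) * (3 * (m + 3)) + (m + 4) * (m + 3) * (m + 3) := by
                  nlinarith
                calc ((m + 3) * (m + 2) * (m + 1)) * (4 * (b + η) * c)
                    = (4 * ((m + 3) * (m + 2) * (m + 1))) * ((b + η) * c) := by ring
                  _ ≤ (((m + 3) * (m + 2)) * (3 * (m + 3)) + (m + 4) * (m + 3) * (m + 3)) *
                      ((b + η) * c) := Nat.mul_le_mul_right _ this
                  _ = _ := by ring
            _ ≤ ((m + 3) * (m + 2)) * (3 * (m + 3) * (b + η) * c) +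
                  ((m + 4) * (m + 3) * (m + 3)) * ((3 * (2 * e + 1) * η) * c) := by gcongr
            _ = (2 * g) * (3 * (m + 3) * (b + η) * c) +
                  ((2 * g2) * (m + 3)) * (3 * (2 * e + 1) * (c * η)) := by
                rw [k4, k3]; ring
            _ = (2 * g) * (3 * (m + 3) * (b + η) * c) +
                  ((2 * g2) * (m + 3)) * (3 * (2 * e + 1) * (c1 * (b + η))) := by rw [e1]
            _ = _ := by ring
        exact Nat.le_of_mul_le_mul_left e3 (by omega)
      nlinarith [Nat.zero_le ((2 * e).choose 2 * ((m + 3 + 2).choose (m + 2) *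
        (b + η - 2).choose b))]
  · -- δ ≥ 4
    have k1 := ch3 m δ (by omega)
    have k2 := two_choose (m + δ)
    set g := (m + δ).choose 2
    set g1 := (m + δ).choose (m + 2)
    set g2 := (m + δ).choose m
    have e1 : 4 * (g2 * c) ≤ g * (g1 * c) := by
      have e2 : (2 * ((m + 1) * (m + 2))) * (4 * (g2 * c)) ≤
          (2 * ((m + 1) * (m + 2))) * (g * (g1 * c)) := by
        have e3 : 4 * 3 ≤ δ * (δ - 1) := Nat.mul_le_mul hδ (by omega)
        have e4 : (m + 2) * (m + 1) ≤ (m + δ) * (m + δ - 1) :=
          Nat.mul_le_mul (by omega) (by omega)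
        calc (2 * ((m + 1) * (m + 2))) * (4 * (g2 * c))
            ≤ ((m + 2) * (m + 1)) * (g2 * (4 * 3)) * c := by nlinarith [Nat.zero_le (((m + 2) * (m + 1)) * (g2 * c))]
          _ ≤ ((m + δ) * (m + δ - 1)) * (g2 * (δ * (δ - 1))) * c := by gcongr
          _ = (2 * g) * (g1 * ((m + 1) * (m + 2))) * c := by rw [k1, k2]
          _ = _ := by ring
      exact Nat.le_of_mul_le_mul_left e2 (by positivity)
    exact e1.trans ((Nat.le_add_right _ _).trans (Nat.le_add_right _ _))

end Pool.Agent.Helper293.EvenBlocks
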