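import Pool.Agent.Helper293.EvenBlocks.QuotSum
import Pool.Agent.Helper293.EvenBlocks.Coef

set_option autoImplicit false
set_option linter.unusedSectionVars false

namespace Pool.Agent.Helper293.EvenBlocks

open Finset

/-- conditions on the fibres -/
def cond (a b : ℕ) (j : Fin a ⊕ Fin b) (c : ℕ) : Prop :=
  Sum.elim (fun _ => c ≠ 0 ∧ Even c) (fun _ => Odd c) j

/-- number of invariant maps with `a` even and `b` odd nonempty fibres -/
noncomputable def NN {X : Type} (σ : Equiv.Perm X) (a b : ℕ) : ℕ := cnt σ (cond a b)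

/-- evaluation of the coefficients -/
noncomputable def EV {X : Type} (σ : Equiv.Perm X) (k : ℕ) : ℤ :=
  ∑ d ∈ range (2 * k + 2), ∑ b ∈ range (d + 1), S k (d - b) b * (NN σ (d - b) b : ℤ)

theorem cnt_eq_zero {X ι : Type} (σ : Equiv.Perm X) (p : ι → ℕ → Prop)
    (h : ∀ f : X → ι, ¬ ∀ i, p i (Nat.card {x // f x = i})) : cnt σ p = 0 := by
  unfold cnt
  have : IsEmpty {f : X → ι // (∀ x, f (σ x) = f x) ∧ ∀ i, p i (Nat.card {x // f x = i})} :=
    ⟨fun f => h f.1 f.2.2⟩
  exact Nat.card_of_isEmpty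

theorem cnt_congr {X ι : Type} (σ : Equiv.Perm X) (p q : ι → ℕ → Prop)
    (h : ∀ f : X → ι, (∀ i, p i (Nat.card {x // f x = i})) ↔
      (∀ i, q i (Nat.card {x // f x = i}))) : cnt σ p = cnt σ q := by
  unfold cnt
  apply Nat.card_congr
  apply Equiv.subtypeEquivRight
  intro f
  rw [h f]

theorem NN_small {X : Type} [Finite X] (σ : Equiv.Perm X) (a b : ℕ)
    (h : Nat.card X < 2 * a + b) : NN σ a b = 0 := by
  apply cnt_eq_zero
  intro f hf
  have h1 := natcard_eq_sum_fibres f
  rw [Fintype.sum_sum_type] at h1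
  have h2 : ∑ i : Fin a, 2 ≤ ∑ i : Fin a, Nat.card {x // f x = Sum.inl i} := by
    refine Finset.sum_le_sum fun i _ => ?_
    have := hf (Sum.inl i)
    simp only [cond, Sum.elim_inl] at this
    obtain ⟨c, hc⟩ := this.2
    omega
  have h3 : ∑ i : Fin b, 1 ≤ ∑ i : Fin b, Nat.card {x // f x = Sum.inr i} := by
    refine Finset.sum_le_sum fun i _ => ?_
    have := hf (Sum.inr i)
    simp only [cond, Sum.elim_inr] at this
    exact this.pos
  have e3 : ∑ i : Fin a, 2 = 2 * a := by simp [mul_comm]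
  have e4 : ∑ i : Fin b, 1 = b := by simp
  omega

theorem NN_odd {X : Type} [Finite X] (σ : Equiv.Perm X) (a b : ℕ)
    (h : Even (Nat.card X)) (hb : b % 2 = 1) : NN σ a b = 0 := by
  apply cnt_eq_zero
  intro f hf
  have h1 := natcard_eq_sum_fibres f
  rw [Fintype.sum_sum_type] at h1
  have h2 : Even (∑ i : Fin a, Nat.card {x // f x = Sum.inl i}) := by
    apply Finset.even_sum
    intro i _
    have := hf (Sum.inl i)
    simp only [cond, Sum.elim_inl] at this
    exact this.2
  have h3 : Odd (∑ i : Fin b, Nat.card {x // f x = Sum.inr i}) := by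
    rw [Finset.odd_sum_iff_odd_card_odd]
    have : (univ.filter fun i : Fin b => Odd (Nat.card {x // f x = Sum.inr i})) = univ := by
      rw [Finset.filter_true_of_mem]
      intro i _
      have := hf (Sum.inr i)
      simp only [cond, Sum.elim_inr] at this
      exact this
    rw [this]
    simp only [card_univ, Fintype.card_fin]
    exact Nat.odd_iff.2 hb
  have h4 := h2.add_odd h3
  rw [← h1] at h4
  exact Nat.not_even_iff_odd.2 h4 h

theorem NN_exact {X : Type} [Finite X] (σ : Equiv.Perm X) (a b : ℕ)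
    (h : Nat.card X = 2 * a + b) : NN σ a b =
    cnt σ (fun (j : Fin a ⊕ Fin b) c => c = Sum.elim (fun _ => 2) (fun _ => 1) j) := by
  apply cnt_congr
  intro f
  constructor
  · intro hf
    have h1 := natcard_eq_sum_fibres f
    rw [Fintype.sum_sum_type] at h1
    have h2 : ∀ i : Fin a, 2 ≤ Nat.card {x // f x = Sum.inl i} := by
      intro i
      have := hf (Sum.inl i)
      simp only [cond, Sum.elim_inl] at this
      obtain ⟨c, hc⟩ := this.2
      omega
    have h3 : ∀ i : Fin b, 1 ≤ Nat.card {x // f x = Sum.inr i} := by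
      intro i
      have := hf (Sum.inr i)
      simp only [cond, Sum.elim_inr] at this
      exact this.pos
    have e1 : ∑ i : Fin a, 2 ≤ ∑ i : Fin a, Nat.card {x // f x = Sum.inl i} :=
      Finset.sum_le_sum fun i _ => h2 i
    have e2 : ∑ i : Fin b, 1 ≤ ∑ i : Fin b, Nat.card {x // f x = Sum.inr i} :=
      Finset.sum_le_sum fun i _ => h3 i
    have e3 : ∑ i : Fin a, 2 = 2 * a := by simp [mul_comm]
    have e4 : ∑ i : Fin b, 1 = b := by simp
    have e5 : ∑ i : Fin a, 2 = ∑ i : Fin a, Nat.card {x // f x = Sum.inl i} := by omega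
    have e6 : ∑ i : Fin b, 1 = ∑ i : Fin b, Nat.card {x // f x = Sum.inr i} := by omega
    have e7 := (Finset.sum_eq_sum_iff_of_le fun i _ => h2 i).1 e5
    have e8 := (Finset.sum_eq_sum_iff_of_le fun i _ => h3 i).1 e6
    rintro (i | i)
    · simp only [Sum.elim_inl]
      exact (e7 i (mem_univ i)).symm
    · simp only [Sum.elim_inr]
      exact (e8 i (mem_univ i)).symm
  · intro hf j
    have := hf j
    rcases j with j | j
    · simp only [Sum.elim_inl] at this
      simp only [cond, Sum.elim_inl]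
      rw [this]; exact ⟨by norm_num, by decide⟩
    · simp only [Sum.elim_inr] at this
      simp only [cond, Sum.elim_inr]
      rw [this]; exact odd_one

theorem NN_LL {X : Type} [Fintype X] [DecidableEq X] (σ : Equiv.Perm X) (a b : ℕ) :
    (NN σ a b : ℤ) = LL (pE σ ^ a * pO σ ^ b) := by
  unfold NN
  rw [cnt_eq]
  congr 1
  have h1 : ∀ i : Fin a, cond a b (Sum.inl i) = fun n => n ≠ 0 ∧ Even n := fun i => rfl
  have h2 : ∀ i : Fin b, cond a b (Sum.inr i) = fun n => Odd n := fun i => rfl
  rw [Fintype.prod_sum_type]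
  simp_rw [h1, h2]
  rw [Finset.prod_const, Finset.prod_const, card_univ, card_univ, Fintype.card_fin,
    Fintype.card_fin]
  rfl

/-- expansion of the product -/
theorem expand {X : Type} [Fintype X] [DecidableEq X] (σ : Equiv.Perm X) (N i : ℕ)
    (hi : i ≤ N) :
    LL ((pE σ * pI σ) ^ i * pN σ ^ (2 * N - 2 * i)) =
    ∑ d ∈ range (2 * N + 1), ∑ b ∈ range (d + 1),
      ((Nat.choose i (2 * N - d) * Nat.choose (d - i) b : ℕ) : ℤ) * (NN σ (d - b) b : ℤ) := by
  have h1 : (pE σ * pI σ) ^ i * pN σ ^ (2 * N - 2 * i) =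
      ∑ m ∈ range (i + 1), ∑ b ∈ range (2 * N - i - m + 1),
        ((Nat.choose i m * Nat.choose (2 * N - i - m) b : ℕ) : MvPolynomial X ℤ) *
          (pE σ ^ (2 * N - m - b) * pO σ ^ b) := by
    rw [pI_eq, pN_eq, mul_pow, add_pow, Finset.mul_sum, Finset.sum_mul]
    refine Finset.sum_congr rfl fun m hm => ?_
    rw [mem_range] at hm
    have h2 : pE σ ^ i * (1 ^ m * (pE σ + pO σ) ^ (i - m) * (i.choose m : MvPolynomial X ℤ)) *
        (pE σ + pO σ) ^ (2 * N - 2 * i) =
        (i.choose m : MvPolynomial X ℤ) * (pE σ ^ i * (pO σ + pE σ) ^ (2 * N - i - m)) := by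
      rw [show 2 * N - i - m = (i - m) + (2 * N - 2 * i) by omega, pow_add]
      ring
    rw [h2, add_pow, Finset.mul_sum, Finset.mul_sum]
    refine Finset.sum_congr rfl fun b hb => ?_
    rw [mem_range] at hb
    rw [show 2 * N - m - b = i + (2 * N - i - m - b) by omega, pow_add]
    push_cast
    ring
  rw [h1, LL_sum]
  simp_rw [LL_sum, LL_nat_mul, ← NN_LL]
  rw [← Finset.sum_range_reflect (fun d => ∑ b ∈ range (d + 1),
      ((Nat.choose i (2 * N - d) * Nat.choose (d - i) b : ℕ) : ℤ) * (NN σ (d - b) b : ℤ))]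
  have h3 : range (i + 1) ⊆ range (2 * N + 1) := by
    intro x hx
    rw [mem_range] at hx ⊢
    omega
  rw [← Finset.sum_subset h3]
  · refine Finset.sum_congr rfl fun m hm => ?_
    rw [mem_range] at hm
    have h4 : range (2 * N - i - m + 1) ⊆ range (2 * N + 1 - 1 - m + 1) := by
      intro x hx
      rw [mem_range] at hx ⊢
      omega
    rw [← Finset.sum_subset h4]
    · refine Finset.sum_congr rfl fun b hb => ?_
      rw [mem_range] at hb
      rw [show 2 * N - (2 * N + 1 - 1 - m) = m by omega,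
        show 2 * N + 1 - 1 - m - i = 2 * N - i - m by omega,
        show 2 * N + 1 - 1 - m - b = 2 * N - m - b by omega]
    · intro b hb hb'
      rw [mem_range] at hb hb'
      rw [Nat.choose_eq_zero_of_lt (show 2 * N + 1 - 1 - m - i < b by omega)]
      simp
  · intro m hm hm'
    rw [mem_range] at hm hm'
    apply Finset.sum_eq_zero
    intro b hb
    rw [Nat.choose_eq_zero_of_lt (show i < 2 * N - (2 * N + 1 - 1 - m) by omega)]
    simp

/-- evaluation on a set with exactly `2 (k+1)` elements -/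
theorem EV_exact {X : Type} [Finite X] (σ : Equiv.Perm X) (k : ℕ)
    (h : Nat.card X = 2 * (k + 1)) : EV σ k =
    ∑ i ∈ range (k + 2), B k i * (NN σ i (2 * (k + 1) - 2 * i) : ℤ) := by
  have h1 : ∀ d ∈ range (2 * k + 2), ∑ b ∈ range (d + 1), S k (d - b) b * (NN σ (d - b) b : ℤ) =
      if k + 1 ≤ d then B k (2 * (k + 1) - d) *
        (NN σ (2 * (k + 1) - d) (2 * (k + 1) - 2 * (2 * (k + 1) - d)) : ℤ) else 0 := by
    intro d hd
    rw [mem_range] at hd
    have hz : ∀ b, b ≤ d → 2 * d - b ≠ 2 * (k + 1) →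
        S k (d - b) b * (NN σ (d - b) b : ℤ) = 0 := by
      intro b hb hne
      rcases Nat.lt_or_ge (2 * (d - b) + b) (2 * (k + 1)) with h2 | h2
      · rw [S_low _ _ _ h2, zero_mul]
      · rw [NN_small σ (d - b) b (by omega)]
        simp
    split_ifs with hkd
    · rw [Finset.sum_eq_single (2 * d - 2 * (k + 1))]
      · rw [B_S k _ _ (by omega), show d - (2 * d - 2 * (k + 1)) = 2 * (k + 1) - d by omega,
          show 2 * d - 2 * (k + 1) = 2 * (k + 1) - 2 * (2 * (k + 1) - d) by omega]
      · intro b hb hne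
        rw [mem_range] at hb
        exact hz b (by omega) (by omega)
      · intro hnot
        rw [mem_range] at hnot
        omega
    · apply Finset.sum_eq_zero
      intro b hb
      rw [mem_range] at hb
      exact hz b (by omega) (by omega)
  unfold EV
  rw [Finset.sum_congr rfl h1]
  have h2 : ∑ d ∈ range (2 * k + 2), (if k + 1 ≤ d then B k (2 * (k + 1) - d) *
        (NN σ (2 * (k + 1) - d) (2 * (k + 1) - 2 * (2 * (k + 1) - d)) : ℤ) else 0) =
      ∑ d ∈ range (2 * k + 3), (if k + 1 ≤ d then B k (2 * (k + 1) - d) *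
        (NN σ (2 * (k + 1) - d) (2 * (k + 1) - 2 * (2 * (k + 1) - d)) : ℤ) else 0) := by
    rw [Finset.sum_range_succ _ (2 * k + 2), if_pos (by omega)]
    have : B k (2 * (k + 1) - (2 * k + 2)) = 0 := by
      unfold B
      exact S_deg _ _ _ (by omega)
    rw [this]; simp
  rw [h2, ← Finset.sum_range_reflect]
  have h3 : range (k + 2) ⊆ range (2 * k + 3) := by
    intro x hx
    rw [mem_range] at hx ⊢
    omega
  rw [← Finset.sum_subset h3]
  · refine Finset.sum_congr rfl fun i hi => ?_
    rw [mem_range] at hi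
    rw [if_pos (by omega), show 2 * (k + 1) - (2 * k + 3 - 1 - i) = i by omega]
  · intro i hi hi'
    rw [mem_range] at hi hi'
    rw [if_neg (by omega)]

/-- the recursion for the evaluations -/
theorem EV_succ {X : Type} [Fintype X] [DecidableEq X] (σ : Equiv.Perm X) (k : ℕ)
    (h : Even (Nat.card X)) : EV σ (k + 1) =
    ∑ i ∈ range (k + 2), B k i *
      LL ((pE σ * pI σ) ^ i * pN σ ^ (2 * (k + 1) - 2 * i)) - EV σ k := by
  have h1 : EV σ (k + 1) = (∑ d ∈ range (2 * k + 4), ∑ b ∈ range (d + 1),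
      W k (d - b) b * (NN σ (d - b) b : ℤ)) -
      ∑ d ∈ range (2 * k + 4), ∑ b ∈ range (d + 1), S k (d - b) b * (NN σ (d - b) b : ℤ) := by
    unfold EV
    rw [show 2 * (k + 1) + 2 = 2 * k + 4 by ring, ← Finset.sum_sub_distrib]
    refine Finset.sum_congr rfl fun d _ => ?_
    rw [← Finset.sum_sub_distrib]
    refine Finset.sum_congr rfl fun b _ => ?_
    rw [S_succ]; ring
  have h2 : ∑ d ∈ range (2 * k + 4), ∑ b ∈ range (d + 1),
      S k (d - b) b * (NN σ (d - b) b : ℤ) = EV σ k := by
    unfold EV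
    rw [Finset.sum_range_succ _ (2 * k + 3), Finset.sum_range_succ _ (2 * k + 2),
      Finset.sum_eq_zero (s := range (2 * k + 2 + 1)),
      Finset.sum_eq_zero (s := range (2 * k + 3 + 1))]
    · ring
    · intro b hb
      rw [mem_range] at hb
      rw [S_deg _ _ _ (by omega), zero_mul]
    · intro b hb
      rw [mem_range] at hb
      rw [S_deg _ _ _ (by omega), zero_mul]
  have h3 : ∑ d ∈ range (2 * k + 4), ∑ b ∈ range (d + 1),
      W k (d - b) b * (NN σ (d - b) b : ℤ) = ∑ d ∈ range (2 * k + 3), ∑ b ∈ range (d + 1),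
      (∑ i ∈ range (k + 2), B k i *
        ((Nat.choose i (2 * (k + 1) - d) * Nat.choose (d - i) b : ℕ) : ℤ)) *
        (NN σ (d - b) b : ℤ) := by
    rw [Finset.sum_range_succ _ (2 * k + 3),
      Finset.sum_eq_zero (s := range (2 * k + 3 + 1)), add_zero]
    · refine Finset.sum_congr rfl fun d hd => Finset.sum_congr rfl fun b hb => ?_
      rw [mem_range] at hd hb
      rcases Nat.even_or_odd' b with ⟨c, hc | hc⟩
      · congr 1
        unfold W
        rw [if_pos ⟨by omega, by omega⟩, show d - b + b = d by omega]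
      · rw [NN_odd σ _ b h (by omega)]
        simp
    · intro b hb
      rw [mem_range] at hb
      unfold W
      rw [if_neg (by omega), zero_mul]
  rw [h1, h2, h3]
  congr 1
  have h4 : ∀ i ∈ range (k + 2), B k i *
      LL ((pE σ * pI σ) ^ i * pN σ ^ (2 * (k + 1) - 2 * i)) =
      ∑ d ∈ range (2 * k + 3), ∑ b ∈ range (d + 1), B k i *
      (((Nat.choose i (2 * (k + 1) - d) * Nat.choose (d - i) b : ℕ) : ℤ) *
        (NN σ (d - b) b : ℤ)) := by
    intro i hi
    rw [mem_range] at hi
    rw [expand σ (k + 1) i (by omega), Finset.mul_sum, show 2 * (k + 1) + 1 = 2 * k + 3 by ring]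
    refine Finset.sum_congr rfl fun d _ => ?_
    rw [Finset.mul_sum]
  rw [Finset.sum_congr rfl h4, Finset.sum_comm]
  refine Finset.sum_congr rfl fun d _ => ?_
  rw [Finset.sum_comm]
  refine Finset.sum_congr rfl fun b _ => ?_
  rw [Finset.sum_mul]
  refine Finset.sum_congr rfl fun i _ => ?_
  ring

theorem NN_one_zero {X : Type} [Finite X] (σ : Equiv.Perm X) (h : Even (Nat.card X))
    (h0 : Nat.card X ≠ 0) : NN σ 1 0 = 1 := by
  unfold NN cnt
  have hsub : Subsingleton (Fin 1 ⊕ Fin 0) := ⟨by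
    rintro (a | a) (b | b)
    · rw [Subsingleton.elim a b]
    · exact b.elim0
    · exact a.elim0
    · exact a.elim0⟩
  rw [Nat.card_eq_one_iff_unique]
  refine ⟨⟨fun f g => Subtype.ext (Subsingleton.elim _ _)⟩, ⟨⟨fun _ => Sum.inl 0, fun _ => rfl, ?_⟩⟩⟩
  rintro (a | a)
  · have : Nat.card {x : X // (Sum.inl 0 : Fin 1 ⊕ Fin 0) = Sum.inl a} = Nat.card X := by
      apply Nat.card_congr
      exact Equiv.subtypeUnivEquiv fun x => Subsingleton.elim _ _
    simp only [cond, Sum.elim_inl]
    rw [this]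
    exact ⟨h0, h⟩
  · exact a.elim0

theorem EV_zero {X : Type} [Finite X] (σ : Equiv.Perm X) (h : Even (Nat.card X))
    (h0 : Nat.card X ≠ 0) : EV σ 0 = 1 := by
  unfold EV
  rw [Finset.sum_range_succ, Finset.sum_range_succ, Finset.sum_range_zero,
    Finset.sum_range_succ, Finset.sum_range_zero, Finset.sum_range_succ, Finset.sum_range_succ,
    Finset.sum_range_zero]
  simp only [S_zero]
  simp [NN_one_zero σ h h0]

/-- the chain sum in terms of the coefficients -/
theorem chi_eq (k : ℕ) : ∀ (X : Type) [Finite X] (σ : Equiv.Perm X), Even (Nat.card X) →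
    Nat.card X ≠ 0 → (-1 : ℤ) ^ k * chi (PS σ k) = EV σ k := by
  induction k with
  | zero =>
    intro X _ σ h h0
    rw [EV_zero σ h h0]
    have : PS σ 0 = ∅ := by
      ext r
      rw [mem_PS]
      constructor
      · rintro ⟨_, j, h1, h2, _⟩; omega
      · intro h; simp at h
    rw [this]
    unfold chi
    have h2 : chains (∅ : Finset (Setoid X)) = {∅} := by
      ext C
      rw [mem_chains, subset_empty, mem_singleton]
      constructor
      · exact fun h => h.1
      · rintro rfl
        exact ⟨rfl, by simp⟩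
    rw [h2]; simp
  | succ k ih =>
    intro X _ σ h h0
    classical
    have : Fintype X := Fintype.ofFinite X
    rw [EV_succ σ k h, chi_PS_succ, ← ih X σ h h0]
    have h1 : ∀ r ∈ (RS σ (k + 1)).attach,
        (-1 : ℤ) ^ k * chi (PS (qperm σ r.1 (mem_RS.1 r.2).1) k) =
        ∑ i ∈ range (k + 2), B k i * (cnt (qperm σ r.1 (mem_RS.1 r.2).1)
          (fun (j : Fin i ⊕ Fin (2 * (k + 1) - 2 * i)) c =>
            c = Sum.elim (fun _ => 2) (fun _ => 1) j) : ℤ) := by
      intro r _
      have h2 := (mem_RS.1 r.2).2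
      rw [ih (Quotient r.1) _ (by rw [h2]; exact even_two_mul _) (by omega), EV_exact _ k h2]
      refine Finset.sum_congr rfl fun i hi => ?_
      rw [mem_range] at hi
      rw [NN_exact _ i _ (by rw [h2]; omega)]
    have h3 : ∑ i ∈ range (k + 2), B k i *
        LL ((pE σ * pI σ) ^ i * pN σ ^ (2 * (k + 1) - 2 * i)) =
        ∑ r ∈ (RS σ (k + 1)).attach, (-1 : ℤ) ^ k *
          chi (PS (qperm σ r.1 (mem_RS.1 r.2).1) k) := by
      rw [Finset.sum_congr rfl h1, Finset.sum_comm]
      refine Finset.sum_congr rfl fun i hi => ?_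
      rw [mem_range] at hi
      rw [← Finset.mul_sum, ← sum_RS_LL σ (k + 1) i (2 * (k + 1) - 2 * i) (by omega)]
      push_cast
      rfl
    rw [h3, ← Finset.mul_sum]
    ring

end Pool.Agent.Helper293.EvenBlocks
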