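import Pool.Agent.Helper293.EvenBlocks.Fixed

set_option autoImplicit false

namespace Pool.Agent.Helper293.EvenBlocks

open Finset MvPolynomial

section
variable {X : Type} [Fintype X] [DecidableEq X]

/-- indicator exponent -/
noncomputable def ind (T : Finset X) : X →₀ ℕ :=
  Finsupp.equivFunOnFinite.symm fun x => if x ∈ T then 1 else 0

theorem ind_apply (T : Finset X) (x : X) : ind T x = if x ∈ T then 1 else 0 := rfl

/-- weighted sum of squarefree monomials -/
noncomputable def pol (w : Finset X → ℤ) : MvPolynomial X ℤ := ∑ T : Finset X, monomial (ind T) (w T)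

/-- the coefficient of the product of all variables -/
noncomputable def LL (Q : MvPolynomial X ℤ) : ℤ := coeff (ind (univ : Finset X)) Q

theorem LL_add (P Q : MvPolynomial X ℤ) : LL (P + Q) = LL P + LL Q := coeff_add _ _ _

theorem LL_sum {ι : Type} (s : Finset ι) (f : ι → MvPolynomial X ℤ) :
    LL (∑ i ∈ s, f i) = ∑ i ∈ s, LL (f i) := by
  unfold LL; rw [coeff_sum]

theorem LL_nat_mul (n : ℕ) (P : MvPolynomial X ℤ) : LL ((n : MvPolynomial X ℤ) * P) = n * LL P := by
  unfold LL
  rw [← nsmul_eq_mul, coeff_smul, nsmul_eq_mul]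

omit [Fintype X] [DecidableEq X] in
theorem prod_monomial' {ι : Type} (s : Finset ι) (f : ι → X →₀ ℕ) (a : ι → ℤ) :
    ∏ i ∈ s, monomial (f i) (a i) = monomial (∑ i ∈ s, f i) (∏ i ∈ s, a i) := by
  classical
  induction s using Finset.induction_on with
  | empty => simp
  | insert i s hi ih => rw [prod_insert hi, ih, monomial_mul, sum_insert hi, prod_insert hi]

theorem LL_prod {ι : Type} [Fintype ι] [DecidableEq ι] (w : ι → Finset X → ℤ) :
    LL (∏ i, pol (w i)) = ∑ F : X → ι, ∏ i, w i (univ.filter fun x => F x = i) := by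
  unfold LL pol
  rw [Finset.prod_univ_sum, coeff_sum]
  simp_rw [prod_monomial', coeff_monomial]
  rw [← Finset.sum_filter]
  symm
  refine Finset.sum_bij (fun F _ => fun i => univ.filter fun x => F x = i) ?_ ?_ ?_ ?_
  · intro F _
    rw [mem_filter]
    refine ⟨by simp, ?_⟩
    ext x
    rw [Finsupp.finsetSum_apply]
    simp [ind_apply]
  · intro F _ G _ h
    funext x
    have := congrFun h (F x)
    have h2 : x ∈ univ.filter (fun y => F y = F x) := by simp
    rw [show univ.filter (fun y => F y = F x) = univ.filter (fun y => G y = F x) from this] at h2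
    have h3 : G x = F x := by simpa using h2
    exact h3.symm
  · intro p hp
    rw [mem_filter] at hp
    have h1 : ∀ x : X, (univ.filter fun i => x ∈ p i).card = 1 := by
      intro x
      have := DFunLike.congr_fun hp.2 x
      rw [Finsupp.finsetSum_apply] at this
      simpa [ind_apply] using this
    have h2 : ∀ x : X, ∃ i, univ.filter (fun i => x ∈ p i) = {i} := fun x =>
      Finset.card_eq_one.1 (h1 x)
    choose F hF using h2
    refine ⟨F, mem_univ _, ?_⟩
    funext i
    ext x
    have h3 : i ∈ univ.filter (fun i => x ∈ p i) ↔ i ∈ ({F x} : Finset ι) := by rw [hF x]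
    simp only [mem_filter, mem_univ, true_and, mem_singleton] at h3 ⊢
    rw [h3]
    exact eq_comm
  · intro F _
    rfl

end

end Pool.Agent.Helper293.EvenBlocks
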