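import Pool.Agent.Helper293.EvenBlocks.Coef
import Pool.Agent.Helper293.EvenBlocks.Ineq

set_option autoImplicit false

namespace Pool.Agent.Helper293.EvenBlocks

open Finset

/-- the induction statement, bounds part -/
def PP (k : ℕ) : Prop := ∀ a b : ℕ, b % 2 = 0 → 2 * k + 4 ≤ 2 * a + b →
  0 ≤ S (k + 1) a b ∧ S (k + 1) a b ≤ W k a b ∧ W k a b ≤ 2 * S (k + 1) a b

/-- the induction statement, exceptional part -/
def TT (k : ℕ) : Prop := ((k : ℤ) + 1) * (k - 4) * B k (k + 1) ≤ 4 * B k (k - 1)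

theorem S_nonneg_of_PP {k : ℕ} (h : PP k) (a b : ℕ) : 0 ≤ S (k + 1) a b := by
  rcases Nat.even_or_odd' b with ⟨c, hc | hc⟩
  · rcases lt_or_ge (2 * a + b) (2 * (k + 1 + 1)) with h1 | h1
    · rw [S_low _ _ _ h1]
    · exact (h a b (by omega) (by omega)).1
  · rw [S_odd _ _ _ (by omega)]

theorem S_zero_nonneg (a b : ℕ) : 0 ≤ S 0 a b := by
  rw [S_zero]; split_ifs <;> norm_num

/-- coefficients in the bound of the step -/
def K (q i j : ℕ) : ℕ :=
  if 2 ≤ i then (j.choose (i - 2)) * ((2 * (q + 2) - i - j).choose (2 * (q + 2) - 2 * i)) else 0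

theorem B_lower {q : ℕ} (h : PP q) (i : ℕ) (hi : i ≤ q + 2) :
    ∑ j ∈ range (q + 2), B q j * ((K q i j : ℕ) : ℤ) ≤ 2 * B (q + 1) i := by
  have h1 := h i (2 * (q + 2) - 2 * i) (by omega) (by omega)
  rw [B, show 2 * (q + 1 + 1) - 2 * i = 2 * (q + 2) - 2 * i by omega]
  refine le_trans ?_ h1.2.2
  unfold W
  by_cases hi2 : 2 ≤ i
  · rw [if_pos ⟨by omega, by omega⟩]
    apply le_of_eq
    refine Finset.sum_congr rfl fun j hj => ?_
    rw [K, if_pos hi2, show 2 * (q + 1) - (i + (2 * (q + 2) - 2 * i)) = i - 2 by omega,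
      show i + (2 * (q + 2) - 2 * i) - j = 2 * (q + 2) - i - j by omega]
  · rw [if_neg (by omega)]
    apply le_of_eq
    apply Finset.sum_eq_zero
    intro j _
    rw [K, if_neg hi2]; simp

theorem B_upper {q : ℕ} (h : PP q) (i : ℕ) (hi : i ≤ q + 2) :
    B (q + 1) i ≤ ∑ j ∈ range (q + 2), B q j * ((K q i j : ℕ) : ℤ) := by
  have h1 := h i (2 * (q + 2) - 2 * i) (by omega) (by omega)
  rw [B, show 2 * (q + 1 + 1) - 2 * i = 2 * (q + 2) - 2 * i by omega]
  refine le_trans h1.2.1 ?_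
  unfold W
  by_cases hi2 : 2 ≤ i
  · rw [if_pos ⟨by omega, by omega⟩]
    apply le_of_eq
    refine Finset.sum_congr rfl fun j hj => ?_
    rw [K, if_pos hi2, show 2 * (q + 1) - (i + (2 * (q + 2) - 2 * i)) = i - 2 by omega,
      show i + (2 * (q + 2) - 2 * i) - j = 2 * (q + 2) - i - j by omega]
  · rw [if_neg (by omega)]
    apply le_of_eq
    symm
    apply Finset.sum_eq_zero
    intro j _
    rw [K, if_neg hi2]; simp

/-- weights of the target -/
def wt (N a b i : ℕ) : ℕ := (i.choose (2 * N - (a + b))) * ((a + b - i).choose b)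

theorem K_self (q j : ℕ) : K q j j = j.choose 2 * (if j ≤ q + 2 then 1 else (2 * (q + 2) - j - j).choose (2 * (q + 2) - 2 * j)) := by
  unfold K
  by_cases h : 2 ≤ j
  · rw [if_pos h, Nat.choose_symm h]
    congr 1
    split_ifs with h2
    · rw [show 2 * (q + 2) - j - j = 2 * (q + 2) - 2 * j by omega, Nat.choose_self]
    · rfl
  · rw [if_neg h, Nat.choose_eq_zero_of_lt (by omega), zero_mul]

/-- the sum over the three relevant indices -/
theorem three_terms (q a b j : ℕ) (hb : b % 2 = 0) (hj : j ≤ q + 1) (hab : a + b ≤ 2 * (q + 1))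
    (h2 : 2 * q + 6 ≤ 2 * a + b) (h3 : ¬ (a = q + 3 ∧ b = 0)) :
    4 * ((j.choose (2 * (q + 1) - (a + b))) * ((a + b - j).choose b)) ≤
      ∑ i ∈ range (q + 3), K q i j * wt (q + 2) a b i := by
  by_cases hm : j < 2 * (q + 1) - (a + b)
  · rw [Nat.choose_eq_zero_of_lt hm]; simp
  by_cases ha : a < j
  · rw [Nat.choose_eq_zero_of_lt (show a + b - j < b by omega)]; simp
  push Not at hm ha
  obtain ⟨m, hm'⟩ : ∃ m, m = 2 * (q + 1) - (a + b) := ⟨_, rfl⟩
  obtain ⟨δ, hδ⟩ : ∃ δ, j = m + δ := ⟨j - m, by omega⟩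
  obtain ⟨η, hη⟩ : ∃ η, a = j + η := ⟨a - j, by omega⟩
  obtain ⟨e, he⟩ : ∃ e, q + 1 = j + e := ⟨q + 1 - j, by omega⟩
  have key := termwise m δ η e b hb (by omega) (by omega) (by omega)
  rw [show 2 * (q + 1) - (a + b) = m by omega, show a + b - j = b + η by omega, hδ]
  refine key.trans ?_
  rw [← hδ]
  have hpos : 1 ≤ b + η := by omega
  -- the first term
  have t0 : K q j j * wt (q + 2) a b j = j.choose 2 * (j.choose (m + 2) * (b + η).choose b) := by
    rw [K_self, if_pos (by omega), wt, show 2 * (q + 2) - (a + b) = m + 2 by omega,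
      show a + b - j = b + η by omega]
    ring
  have t1 : j * (2 * e + 1) * ((j + 1).choose (m + 2) * (b + η - 1).choose b) ≤
      K q (j + 1) j * wt (q + 2) a b (j + 1) := by
    unfold K wt
    by_cases hj1 : 1 ≤ j
    · rw [if_pos (by omega), show 2 * (q + 2) - (a + b) = m + 2 by omega,
        show a + b - (j + 1) = b + η - 1 by omega, show j + 1 - 2 = j - 1 by omega,
        Nat.choose_symm hj1, Nat.choose_one_right,
        show 2 * (q + 2) - (j + 1) - j = 2 * e + 1 by omega,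
        show 2 * (q + 2) - 2 * (j + 1) = 2 * e by omega, Nat.choose_succ_self_right]
    · have : j = 0 := by omega
      rw [this]; simp
  have t2 : e ≠ 0 → (2 * e).choose 2 * ((j + 2).choose (m + 2) * (b + η - 2).choose b) ≤
      K q (j + 2) j * wt (q + 2) a b (j + 2) := by
    intro he0
    unfold K wt
    rw [if_pos (by omega), show 2 * (q + 2) - (a + b) = m + 2 by omega,
        show a + b - (j + 2) = b + η - 2 by omega, show j + 2 - 2 = j by omega,
        Nat.choose_self, show 2 * (q + 2) - (j + 2) - j = 2 * e by omega,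
        show 2 * (q + 2) - 2 * (j + 2) = 2 * e - 2 by omega, Nat.choose_symm (by omega), one_mul]
  rw [← t0]
  by_cases he0 : e = 0
  · have hsub : ({j, j + 1} : Finset ℕ) ⊆ range (q + 3) := by
      intro x hx
      simp only [mem_insert, mem_singleton] at hx
      rw [mem_range]; omega
    refine le_trans ?_ (Finset.sum_le_sum_of_subset hsub)
    rw [Finset.sum_pair (by omega)]
    have : (2 * e).choose 2 = 0 := by rw [he0]; rfl
    rw [this, zero_mul, add_zero]
    exact Nat.add_le_add_left t1 _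
  · have hsub : ({j, j + 1, j + 2} : Finset ℕ) ⊆ range (q + 3) := by
      intro x hx
      simp only [mem_insert, mem_singleton] at hx
      rw [mem_range]; omega
    refine le_trans ?_ (Finset.sum_le_sum_of_subset hsub)
    rw [Finset.sum_insert (by simp), Finset.sum_pair (by omega), ← add_assoc]
    exact Nat.add_le_add (Nat.add_le_add_left t1 _) (t2 he0)

theorem W_succ_eq (q a b : ℕ) (hb : b % 2 = 0) (hab : a + b ≤ 2 * (q + 2)) :
    W (q + 1) a b = ∑ i ∈ range (q + 3), B (q + 1) i * ((wt (q + 2) a b i : ℕ) : ℤ) := by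
  unfold W
  rw [if_pos ⟨hb, by omega⟩]
  rfl

theorem B_nonneg_of {q : ℕ} (h : ∀ a b, 0 ≤ S q a b) (j : ℕ) : 0 ≤ B q j := h _ _

/-- the regular case of the step -/
theorem step_regular {q : ℕ} (h : PP q) (hq : ∀ a b, 0 ≤ S q a b) (a b : ℕ) (hb : b % 2 = 0)
    (h2 : 2 * q + 6 ≤ 2 * a + b) (h3 : ¬ (a = q + 3 ∧ b = 0)) :
    2 * W q a b ≤ W (q + 1) a b := by
  by_cases hab : a + b ≤ 2 * (q + 1)
  · rw [W_succ_eq q a b hb (by omega)]
    have h4 : 2 * (2 * W q a b) ≤
        ∑ j ∈ range (q + 2), B q j * ((∑ i ∈ range (q + 3), K q i j * wt (q + 2) a b i : ℕ) : ℤ) := by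
      unfold W
      rw [if_pos ⟨hb, hab⟩, ← mul_assoc, Finset.mul_sum]
      refine Finset.sum_le_sum fun j hj => ?_
      rw [mem_range] at hj
      have h5 := three_terms q a b j hb (by omega) hab h2 h3
      have h6 : (0 : ℤ) ≤ B q j := hq _ _
      have h7 : ((4 * ((j.choose (2 * (q + 1) - (a + b))) * ((a + b - j).choose b)) : ℕ) : ℤ) ≤
        ((∑ i ∈ range (q + 3), K q i j * wt (q + 2) a b i : ℕ) : ℤ) := by exact_mod_cast h5
      calc (2 : ℤ) * 2 * (B q j * ((j.choose (2 * (q + 1) - (a + b)) *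
              (a + b - j).choose b : ℕ) : ℤ))
          = B q j * ((4 * ((j.choose (2 * (q + 1) - (a + b))) *
              ((a + b - j).choose b)) : ℕ) : ℤ) := by push_cast; ring
        _ ≤ _ := mul_le_mul_of_nonneg_left h7 h6
    have h8 : ∑ j ∈ range (q + 2), B q j *
        ((∑ i ∈ range (q + 3), K q i j * wt (q + 2) a b i : ℕ) : ℤ) =
        ∑ i ∈ range (q + 3), (∑ j ∈ range (q + 2), B q j * ((K q i j : ℕ) : ℤ)) *
          ((wt (q + 2) a b i : ℕ) : ℤ) := by
      push_cast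
      simp_rw [Finset.mul_sum, Finset.sum_mul]
      rw [Finset.sum_comm]
      refine Finset.sum_congr rfl fun i _ => Finset.sum_congr rfl fun j _ => by ring
    have h9 : ∑ i ∈ range (q + 3), (∑ j ∈ range (q + 2), B q j * ((K q i j : ℕ) : ℤ)) *
          ((wt (q + 2) a b i : ℕ) : ℤ) ≤
        ∑ i ∈ range (q + 3), (2 * B (q + 1) i) * ((wt (q + 2) a b i : ℕ) : ℤ) := by
      refine Finset.sum_le_sum fun i hi => ?_
      rw [mem_range] at hi
      exact mul_le_mul_of_nonneg_right (B_lower h i (by omega)) (by positivity)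
    have h10 : ∑ i ∈ range (q + 3), (2 * B (q + 1) i) * ((wt (q + 2) a b i : ℕ) : ℤ) =
        2 * ∑ i ∈ range (q + 3), B (q + 1) i * ((wt (q + 2) a b i : ℕ) : ℤ) := by
      rw [Finset.mul_sum]
      refine Finset.sum_congr rfl fun i _ => by ring
    linarith
  · have : W q a b = 0 := by
      unfold W; rw [if_neg]; omega
    rw [this, mul_zero]
    unfold W
    split_ifs
    · apply Finset.sum_nonneg
      intro i _
      exact mul_nonneg (S_nonneg_of_PP h _ _) (by positivity)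
    · exact le_refl _

theorem sum_three (q : ℕ) (f : ℕ → ℤ) (hf : ∀ j, j < q → f j = 0) :
    ∑ j ∈ range (q + 3), f j = f q + f (q + 1) + f (q + 2) := by
  rw [sum_range_succ, sum_range_succ, sum_range_succ, Finset.sum_eq_zero, zero_add]
  intro j hj
  exact hf j (mem_range.1 hj)

theorem sum_four (q : ℕ) (f : ℕ → ℤ) (hf : ∀ j, j < q → f j = 0) :
    ∑ j ∈ range (q + 4), f j = f q + f (q + 1) + f (q + 2) + f (q + 3) := by
  rw [sum_range_succ, sum_three q f hf]

/-- the exceptional case of the step -/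
theorem step_exceptional {q : ℕ} (h : PP q) (hq : ∀ a b, 0 ≤ S q a b) (ht : TT q) :
    2 * W q (q + 3) 0 ≤ W (q + 1) (q + 3) 0 := by
  rcases Nat.eq_zero_or_pos q with h0 | h0
  · subst h0
    have : W 0 (0 + 3) 0 = 0 := by unfold W; rw [if_neg (by omega)]
    rw [this, mul_zero]
    unfold W
    split_ifs
    · apply Finset.sum_nonneg
      intro i _
      exact mul_nonneg (S_nonneg_of_PP h _ _) (by positivity)
    · exact le_refl _
  obtain ⟨r, rfl⟩ : ∃ r, q = r + 1 := ⟨q - 1, by omega⟩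
  -- abbreviations: x = B q (q-1), y = B q q, z = B q (q+1)
  have c2 : (((r + 2).choose 2 : ℕ) : ℤ) * 2 = (r + 2) * (r + 1) := by
    have := two_choose (r + 2)
    rw [show r + 2 - 1 = r + 1 by omega] at this
    have h2 : ((2 * (r + 2).choose 2 : ℕ) : ℤ) = (((r + 2) * (r + 1) : ℕ) : ℤ) := by rw [this]
    push_cast at h2
    linarith
  have w1 : W (r + 1) (r + 1 + 3) 0 = B (r + 1) r + (r + 1) * B (r + 1) (r + 1) +
      ((r + 2).choose 2 : ℕ) * B (r + 1) (r + 2) := by
    unfold W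
    rw [if_pos ⟨rfl, by omega⟩, sum_three]
    · rw [show 2 * (r + 1 + 1) - (r + 1 + 3 + 0) = r by omega]
      simp only [Nat.choose_zero_right, mul_one, Nat.choose_self, Nat.choose_succ_self_right]
      rw [Nat.choose_symm_add]
      push_cast
      ring
    · intro j hj
      rw [show 2 * (r + 1 + 1) - (r + 1 + 3 + 0) = r by omega, Nat.choose_eq_zero_of_lt hj]
      simp
  have w2 : W (r + 1 + 1) (r + 1 + 3) 0 = B (r + 2) (r + 2) + (r + 3) * B (r + 2) (r + 3) := by
    unfold W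
    rw [if_pos ⟨rfl, by omega⟩, sum_range_succ, sum_range_succ, Finset.sum_eq_zero]
    · rw [show 2 * (r + 1 + 1 + 1) - (r + 1 + 3 + 0) = r + 2 by omega]
      simp only [Nat.choose_zero_right, mul_one, Nat.choose_self]
      rw [show r + 1 + 1 + 1 = r + 2 + 1 by ring, Nat.choose_succ_self_right]
      push_cast
      ring
    · intro j hj
      rw [mem_range] at hj
      rw [show 2 * (r + 1 + 1 + 1) - (r + 1 + 3 + 0) = r + 2 by omega,
        Nat.choose_eq_zero_of_lt (show j < r + 2 by omega)]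
      simp
  have l1 := B_lower h (r + 2) (by omega)
  have l2 := B_lower h (r + 3) (by omega)
  rw [sum_three] at l1 l2
  rotate_left
  · intro j hj
    rw [K, if_pos (by omega), Nat.choose_eq_zero_of_lt (show j < r + 3 - 2 by omega)]
    simp
  · intro j hj
    rw [K, if_pos (by omega), Nat.choose_eq_zero_of_lt (show j < r + 2 - 2 by omega)]
    simp
  have k1 : K (r + 1) (r + 2) r = 6 := by
    rw [K, if_pos (by omega), show r + 2 - 2 = r by omega, Nat.choose_self,
      show 2 * (r + 1 + 2) - (r + 2) - r = 4 by omega,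
      show 2 * (r + 1 + 2) - 2 * (r + 2) = 2 by omega]
    rfl
  have k2 : K (r + 1) (r + 2) (r + 1) = 3 * (r + 1) := by
    rw [K, if_pos (by omega), show r + 2 - 2 = r by omega, Nat.choose_succ_self_right,
      show 2 * (r + 1 + 2) - (r + 2) - (r + 1) = 3 by omega,
      show 2 * (r + 1 + 2) - 2 * (r + 2) = 2 by omega]
    rw [show Nat.choose 3 2 = 3 by rfl]; ring
  have k3 : K (r + 1) (r + 2) (r + 2) = (r + 2).choose 2 := by
    rw [K, if_pos (by omega), show r + 2 - 2 = r by omega, Nat.choose_symm_add,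
      show 2 * (r + 1 + 2) - (r + 2) - (r + 2) = 2 by omega,
      show 2 * (r + 1 + 2) - 2 * (r + 2) = 2 by omega]
    simp
  have k4 : K (r + 1) (r + 3) r = 0 := by
    rw [K, if_pos (by omega), Nat.choose_eq_zero_of_lt (by omega), zero_mul]
  have k5 : K (r + 1) (r + 3) (r + 1) = 1 := by
    rw [K, if_pos (by omega), show r + 3 - 2 = r + 1 by omega, Nat.choose_self,
      show 2 * (r + 1 + 2) - 2 * (r + 3) = 0 by omega]
    simp
  have k6 : K (r + 1) (r + 3) (r + 2) = r + 2 := by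
    rw [K, if_pos (by omega), show r + 3 - 2 = r + 1 by omega, Nat.choose_succ_self_right,
      show 2 * (r + 1 + 2) - 2 * (r + 3) = 0 by omega]
    simp
  rw [k1, k2, k3] at l1
  rw [k4, k5, k6] at l2
  have hy : 0 ≤ B (r + 1) (r + 1) := hq _ _
  unfold TT at ht
  rw [show r + 1 - 1 = r by omega, show r + 1 + 1 = r + 2 by ring] at ht
  rw [show r + 1 + 1 = r + 2 by ring] at w1 w2 l1 l2
  rw [w1, show r + 1 + 1 = r + 2 by ring, w2]
  push_cast at *
  set x := B (r + 1) r
  set y := B (r + 1) (r + 1)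
  set z := B (r + 1) (r + 2)
  set u := B (r + 2) (r + 2)
  set v := B (r + 2) (r + 3)
  set c := (((r + 2).choose 2 : ℕ) : ℤ)
  have l2' : ((r : ℤ) + 3) * (x * 0 + y * 1 + z * (r + 2)) ≤ ((r : ℤ) + 3) * (2 * v) :=
    mul_le_mul_of_nonneg_left l2 (by positivity)
  have c3 : c * 2 * z = (r + 2) * (r + 1) * z := by rw [c2]
  nlinarith

theorem TT_step {q : ℕ} (hq6 : 6 ≤ q) (h : PP q) (hq : ∀ a b, 0 ≤ S q a b) (ht : TT q) :
    TT (q + 1) := by
  obtain ⟨r, rfl⟩ : ∃ r, q = r + 2 := ⟨q - 2, by omega⟩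
  have hr : 4 ≤ r := by omega
  have c2 : (((r + 2).choose 2 : ℕ) : ℤ) * 2 = (r + 2) * (r + 1) := by
    have := two_choose (r + 2)
    rw [show r + 2 - 1 = r + 1 by omega] at this
    have h2 : ((2 * (r + 2).choose 2 : ℕ) : ℤ) = (((r + 2) * (r + 1) : ℕ) : ℤ) := by rw [this]
    push_cast at h2
    linarith
  have l1 := B_lower h (r + 2) (by omega)
  have l2 := B_upper h (r + 4) (by omega)
  rw [sum_four] at l1 l2
  rotate_left
  · intro j hj
    rw [K, if_pos (by omega), Nat.choose_eq_zero_of_lt (show j < r + 4 - 2 by omega)]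
    simp
  · intro j hj
    rw [K, if_pos (by omega), Nat.choose_eq_zero_of_lt (show j < r + 2 - 2 by omega)]
    simp
  have k1 : K (r + 2) (r + 2) r = 15 := by
    rw [K, if_pos (by omega), show r + 2 - 2 = r by omega, Nat.choose_self,
      show 2 * (r + 2 + 2) - (r + 2) - r = 6 by omega,
      show 2 * (r + 2 + 2) - 2 * (r + 2) = 4 by omega]
    rfl
  have k2 : K (r + 2) (r + 2) (r + 1) = 5 * (r + 1) := by
    rw [K, if_pos (by omega), show r + 2 - 2 = r by omega, Nat.choose_succ_self_right,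
      show 2 * (r + 2 + 2) - (r + 2) - (r + 1) = 5 by omega,
      show 2 * (r + 2 + 2) - 2 * (r + 2) = 4 by omega]
    rw [show Nat.choose 5 4 = 5 by rfl]; ring
  have k3 : K (r + 2) (r + 2) (r + 2) = (r + 2).choose 2 := by
    rw [K, if_pos (by omega), show r + 2 - 2 = r by omega, Nat.choose_symm_add,
      show 2 * (r + 2 + 2) - (r + 2) - (r + 2) = 4 by omega,
      show 2 * (r + 2 + 2) - 2 * (r + 2) = 4 by omega]
    simp
  have k3' : K (r + 2) (r + 2) (r + 3) = 0 := by
    rw [K, if_pos (by omega), show 2 * (r + 2 + 2) - (r + 2) - (r + 3) = 3 by omega,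
      show 2 * (r + 2 + 2) - 2 * (r + 2) = 4 by omega]
    simp
  have k4 : K (r + 2) (r + 4) r = 0 := by
    rw [K, if_pos (by omega), Nat.choose_eq_zero_of_lt (by omega), zero_mul]
  have k4' : K (r + 2) (r + 4) (r + 1) = 0 := by
    rw [K, if_pos (by omega), Nat.choose_eq_zero_of_lt (by omega), zero_mul]
  have k5 : K (r + 2) (r + 4) (r + 2) = 1 := by
    rw [K, if_pos (by omega), show r + 4 - 2 = r + 2 by omega, Nat.choose_self,
      show 2 * (r + 2 + 2) - 2 * (r + 4) = 0 by omega]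
    simp
  have k6 : K (r + 2) (r + 4) (r + 3) = r + 3 := by
    rw [K, if_pos (by omega), show r + 4 - 2 = r + 2 by omega, Nat.choose_succ_self_right,
      show 2 * (r + 2 + 2) - 2 * (r + 4) = 0 by omega]
    simp
  rw [k1, k2, k3, k3'] at l1
  rw [k4, k4', k5, k6] at l2
  have hx0 : 0 ≤ B (r + 2) r := hq _ _
  have hx : 0 ≤ B (r + 2) (r + 1) := hq _ _
  have hy : 0 ≤ B (r + 2) (r + 2) := hq _ _
  have hz : 0 ≤ B (r + 2) (r + 3) := hq _ _
  unfold TT at ht ⊢
  rw [show r + 2 - 1 = r + 1 by omega, show r + 2 + 1 = r + 3 by ring] at ht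
  rw [show r + 2 + 1 = r + 3 by ring] at l1 l2
  rw [show r + 2 + 1 - 1 = r + 2 by omega, show r + 2 + 1 + 1 = r + 4 by ring,
    show r + 2 + 1 = r + 3 by ring]
  push_cast at *
  set w := B (r + 2) r
  set x := B (r + 2) (r + 1)
  set y := B (r + 2) (r + 2)
  set z := B (r + 2) (r + 3)
  set u := B (r + 3) (r + 2)
  set v := B (r + 3) (r + 4)
  set c := (((r + 2).choose 2 : ℕ) : ℤ)
  have c3 : c * 2 * y = (r + 2) * (r + 1) * y := by rw [c2]
  obtain ⟨s, hs⟩ : ∃ s : ℤ, (r : ℤ) = s + 4 := ⟨(r : ℤ) - 4, by ring⟩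
  have hs0 : (0 : ℤ) ≤ s := by omega
  rw [hs] at ht l1 l2 c3 ⊢
  -- q = s + 6
  have e1 : ((s : ℤ) + 4 + 3 + 1) * (s + 4 + 3 - 4) * v ≤
      ((s : ℤ) + 4 + 3 + 1) * (s + 4 + 3 - 4) * (y + z * (s + 4 + 3)) := by
    apply mul_le_mul_of_nonneg_left
    · linarith
    · nlinarith
  have e2 : ((s : ℤ) + 2) * (((s : ℤ) + 8) * (s + 3) * ((s + 7) * z)) ≤
      ((s : ℤ) + 2) * (10 * (s + 5) * x) := by
    have e3 : ((s : ℤ) + 8) * (s + 3) * (((s : ℤ) + 7) * (s + 2) * z) ≤
        ((s : ℤ) + 8) * (s + 3) * (4 * x) := by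
      apply mul_le_mul_of_nonneg_left _ (by positivity)
      linarith
    have e4 : ((s : ℤ) + 8) * (s + 3) * (4 * x) ≤ (s + 2) * (10 * (s + 5) * x) := by
      have : ((s : ℤ) + 8) * (s + 3) * 4 ≤ (s + 2) * (10 * (s + 5)) := by nlinarith
      nlinarith
    linarith
  have e5 : ((s : ℤ) + 8) * (s + 3) * ((s + 7) * z) ≤ 10 * (s + 5) * x :=
    le_of_mul_le_mul_left e2 (by positivity)
  nlinarith [mul_nonneg hs0 hy]

theorem PP_step {q : ℕ} (h : PP q) (hq : ∀ a b, 0 ≤ S q a b) (ht : TT q) : PP (q + 1) := by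
  intro a b hb hab
  have h1 := h a b hb (by omega)
  have h2 : 2 * W q a b ≤ W (q + 1) a b := by
    by_cases h3 : a = q + 3 ∧ b = 0
    · obtain ⟨rfl, rfl⟩ := h3
      exact step_exceptional h hq ht
    · exact step_regular h hq a b hb (by omega) h3
  rw [S_succ (q + 1)]
  refine ⟨by linarith [h1.1, h1.2.1], by linarith [h1.1], by linarith [h1.2.1]⟩

theorem PP_zero : PP 0 := by
  intro a b hb hab
  have h0 : S 0 a b = 0 := by rw [S_zero, if_neg]; omega
  rw [S_succ, h0, sub_zero]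
  have h1 : 0 ≤ W 0 a b := by
    unfold W
    split_ifs
    · apply Finset.sum_nonneg
      intro i _
      exact mul_nonneg (S_zero_nonneg _ _) (by positivity)
    · exact le_refl _
  refine ⟨h1, le_refl _, by linarith⟩

theorem TT_five : TT 5 := by
  unfold TT
  decide +kernel

theorem TT_six : TT 6 := by
  unfold TT
  decide +kernel

theorem TT_small {q : ℕ} (hq4 : q ≤ 4) (hq : ∀ a b, 0 ≤ S q a b) : TT q := by
  unfold TT
  have h1 : 0 ≤ B q (q + 1) := hq _ _
  have h2 : 0 ≤ B q (q - 1) := hq _ _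
  have h3 : ((q : ℤ) + 1) * (q - 4) ≤ 0 := by
    have : (q : ℤ) ≤ 4 := by exact_mod_cast hq4
    nlinarith
  nlinarith

theorem main_ind (k : ℕ) : PP k ∧ (∀ a b, 0 ≤ S k a b) ∧ TT k := by
  induction k with
  | zero => exact ⟨PP_zero, S_zero_nonneg, TT_small (by omega) S_zero_nonneg⟩
  | succ k ih =>
    obtain ⟨h1, h2, h3⟩ := ih
    have h4 : ∀ a b, 0 ≤ S (k + 1) a b := S_nonneg_of_PP h1
    refine ⟨PP_step h1 h2 h3, h4, ?_⟩
    rcases Nat.lt_or_ge (k + 1) 5 with h5 | h5
    · exact TT_small (by omega) h4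
    rcases Nat.lt_or_ge (k + 1) 7 with h6 | h6
    · rcases (by omega : k + 1 = 5 ∨ k + 1 = 6) with h7 | h7
      · rw [h7]; exact TT_five
      · rw [h7]; exact TT_six
    · exact TT_step (by omega) h1 h2 h3

theorem S_nonneg (k a b : ℕ) : 0 ≤ S k a b := (main_ind k).2.1 a b

end Pool.Agent.Helper293.EvenBlocks
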