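import Pool.Agent.Helper293.EvenBlocks.Count

set_option autoImplicit false
set_option linter.unusedSectionVars false

namespace Pool.Agent.Helper293.EvenBlocks

open Finset

theorem natcard_eq_sum_fibres {Y ι : Type} [Finite Y] [Fintype ι] (f : Y → ι) :
    Nat.card Y = ∑ i, Nat.card {y // f y = i} := by
  rw [← Nat.card_sigma]
  exact Nat.card_congr (Equiv.sigmaFiberEquiv f).symm

theorem natcard_subtype_sum {α : Type} [Fintype α] (P : α → Prop) [DecidablePred P] :
    Nat.card {a // P a} = ∑ a, if P a then 1 else 0 := by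
  rw [Nat.card_eq_fintype_card, Fintype.card_subtype, Finset.card_filter]

section
variable {X ι : Type} [Fintype X] [DecidableEq X] [Fintype ι] [DecidableEq ι]
  (σ : Equiv.Perm X)

open Classical in
theorem sum_RS (m : ℕ) (n : ι → ℕ) (hn : ∑ i, n i = 2 * m) :
    ∑ r ∈ (RS σ m).attach, (cnt (qperm σ r.1 (mem_RS.1 r.2).1) (fun i c => c = n i)) =
    ∑ F : X → ι, if hF : ∀ x, F (σ x) = F x then
      ∏ i, Nat.card {s : Setoid {x // F x = i} // Fx (fperm σ F hF i) s ∧
      Nat.card (Quotient s) = n i} else 0 := by
  have h1 : ∀ r ∈ (RS σ m).attach, cnt (qperm σ r.1 (mem_RS.1 r.2).1) (fun i c => c = n i) =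
      Nat.card {F : X → ι // (∀ x, F (σ x) = F x) ∧ r.1 ≤ Setoid.ker F ∧
      ∀ i, Nat.card (Quotient (res F r.1 i)) = n i} := by
    intro r _
    unfold cnt
    exact card_lift σ r.1 (mem_RS.1 r.2).1 n
  rw [Finset.sum_congr rfl h1]
  rw [Finset.sum_attach (RS σ m) (fun r => Nat.card {F : X → ι // (∀ x, F (σ x) = F x) ∧
    r ≤ Setoid.ker F ∧ ∀ i, Nat.card (Quotient (res F r i)) = n i})]
  have h2 : ∑ r ∈ RS σ m, Nat.card {F : X → ι // (∀ x, F (σ x) = F x) ∧
      r ≤ Setoid.ker F ∧ ∀ i, Nat.card (Quotient (res F r i)) = n i} =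
      ∑ r : Setoid X, ∑ F : X → ι, if Fx σ r ∧ (∀ x, F (σ x) = F x) ∧
      r ≤ Setoid.ker F ∧ ∀ i, Nat.card (Quotient (res F r i)) = n i then 1 else 0 := by
    unfold RS
    rw [Finset.sum_filter]
    refine Finset.sum_congr rfl fun r _ => ?_
    rw [natcard_subtype_sum]
    split_ifs with h
    · refine Finset.sum_congr rfl fun F _ => ?_
      simp only [h.1, true_and]
    · symm
      apply Finset.sum_eq_zero
      intro F _
      rw [if_neg]
      rintro ⟨h3, h4, h5, h6⟩
      apply h
      refine ⟨h3, ?_⟩
      rw [← hn, natcard_eq_sum_fibres (Quotient.lift F fun x y hxy => h5 hxy)]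
      refine Finset.sum_congr rfl fun i _ => ?_
      rw [← h6 i]
      exact Nat.card_congr (Equiv.subtypeQuotientEquivQuotientSubtype
        (fun x => F x = i) (s₂ := res F r i)
        (fun q => (Quotient.lift F fun x y hxy => h5 hxy) q = i) (fun a => Iff.rfl)
        (fun x y => Iff.rfl))
  rw [h2, Finset.sum_comm]
  refine Finset.sum_congr rfl fun F _ => ?_
  split_ifs with hF
  · rw [← card_glue, natcard_subtype_sum]
    refine Finset.sum_congr rfl fun r _ => ?_
    simp only [hF, implies_true, true_and]
  · apply Finset.sum_eq_zero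
    intro r _
    rw [if_neg]
    rintro ⟨_, h, _⟩
    exact hF h

/-- relations with one class -/
theorem card_one_class {Y : Type} [Fintype Y] (τ : Equiv.Perm Y) :
    Nat.card {s : Setoid Y // Fx τ s ∧ Nat.card (Quotient s) = 1} =
    if Fintype.card Y ≠ 0 then 1 else 0 := by
  split_ifs with h
  · rw [Nat.card_eq_one_iff_unique]
    have hY : Nonempty Y := Fintype.card_pos_iff.1 (by omega)
    have key : ∀ s : Setoid Y, Nat.card (Quotient s) = 1 → s = ⊤ := by
      intro s hs
      rw [Nat.card_eq_one_iff_unique] at hs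
      obtain ⟨hs1, _⟩ := hs
      ext x y
      constructor
      · intro _; trivial
      · intro _
        exact Quotient.exact (hs1.elim (Quotient.mk s x) (Quotient.mk s y))
    refine ⟨⟨fun s t => Subtype.ext (by rw [key s.1 s.2.2, key t.1 t.2.2])⟩, ⟨⟨⊤, ?_, ?_⟩⟩⟩
    · intro x y
      constructor <;> intro _ <;> trivial
    · rw [Nat.card_eq_one_iff_unique]
      refine ⟨⟨fun a b => ?_⟩, ⟨Quotient.mk _ hY.some⟩⟩
      induction a using Quotient.inductionOn with | _ a => ?_
      induction b using Quotient.inductionOn with | _ b => ?_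
      exact Quotient.sound trivial
  · have hY : IsEmpty Y := Fintype.card_eq_zero_iff.1 (by omega)
    have : IsEmpty {s : Setoid Y // Fx τ s ∧ Nat.card (Quotient s) = 1} := by
      refine ⟨fun s => ?_⟩
      have h2 : IsEmpty (Quotient s.1) := ⟨fun q => by
        induction q using Quotient.inductionOn with | _ x => ?_
        exact hY.elim x⟩
      have h3 := s.2.2
      rw [Nat.card_of_isEmpty] at h3
      omega
    exact Nat.card_of_isEmpty

open Classical in
/-- subsets of a fibre -/
theorem card_sub (F : X → ι) (hF : ∀ x, F (σ x) = F x) (i : ι) :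
    (univ.filter fun A : Finset {x // F x = i} => inv (fperm σ F hF i) A ∧ A.Nonempty ∧
      Even A.card).card =
    ((univ.filter fun x => F x = i).powerset.filter fun A => inv σ A ∧ A.Nonempty ∧
      Even A.card).card := by
  have hinv : ∀ A : Finset {x // F x = i}, inv (fperm σ F hF i) A ↔
      inv σ (A.map (Function.Embedding.subtype _)) := by
    intro A
    constructor
    · intro h x
      simp only [mem_map, Function.Embedding.subtype_apply, Subtype.exists, exists_and_right,
        exists_eq_right]
      constructor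
      · rintro ⟨h1, h2⟩
        have h3 : F x = i := by rw [← hF]; exact h1
        exact ⟨h3, (h ⟨x, h3⟩).1 h2⟩
      · rintro ⟨h1, h2⟩
        have h3 : F (σ x) = i := by rw [hF]; exact h1
        exact ⟨h3, (h ⟨x, h1⟩).2 h2⟩
    · intro h x
      have := h x.1
      simp only [mem_map, Function.Embedding.subtype_apply, Subtype.exists, exists_and_right,
        exists_eq_right] at this
      constructor
      · intro h1
        obtain ⟨h2, h3⟩ := this.1 ⟨by rw [hF]; exact x.2, h1⟩
        exact h3
      · intro h1
        obtain ⟨h2, h3⟩ := this.2 ⟨x.2, h1⟩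
        exact h3
  apply Finset.card_bij (fun A _ => A.map (Function.Embedding.subtype _))
  · intro A hA
    rw [mem_filter] at hA ⊢
    refine ⟨?_, (hinv A).1 hA.2.1, ?_, ?_⟩
    · rw [mem_powerset]
      intro x hx
      rw [mem_map] at hx
      obtain ⟨y, _, rfl⟩ := hx
      simp [y.2]
    · exact hA.2.2.1.map
    · rw [card_map]; exact hA.2.2.2
  · intro A _ B _ h
    exact Finset.map_injective _ h
  · intro B hB
    rw [mem_filter, mem_powerset] at hB
    refine ⟨univ.filter fun x => x.1 ∈ B, ?_, ?_⟩
    · have h1 : (univ.filter fun x : {x // F x = i} => x.1 ∈ B).map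
        (Function.Embedding.subtype _) = B := by
        ext x
        simp only [mem_map, mem_filter, mem_univ, true_and, Function.Embedding.subtype_apply,
          Subtype.exists, exists_prop]
        constructor
        · rintro ⟨a, _, h1, rfl⟩; exact h1
        · intro h1
          exact ⟨x, by simpa using hB.1 h1, h1, rfl⟩
      rw [mem_filter]
      refine ⟨mem_univ _, ?_, ?_, ?_⟩
      · rw [hinv, h1]; exact hB.2.1
      · rw [← Finset.map_nonempty (f := Function.Embedding.subtype _), h1]; exact hB.2.2.1
      · rw [← card_map (Function.Embedding.subtype _), h1]; exact hB.2.2.2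
    · ext x
      simp only [mem_map, mem_filter, mem_univ, true_and, Function.Embedding.subtype_apply,
          Subtype.exists, exists_prop]
      constructor
      · rintro ⟨a, _, h1, rfl⟩; exact h1
      · intro h1
        exact ⟨x, by simpa using hB.1 h1, h1, rfl⟩

end

section
variable {X : Type} [Fintype X] [DecidableEq X] (σ : Equiv.Perm X)

/-- the sum over the quotients, evaluated by the functional -/
theorem sum_RS_LL (m i l : ℕ) (h : 2 * i + l = 2 * m) :
    ((∑ r ∈ (RS σ m).attach, (cnt (qperm σ r.1 (mem_RS.1 r.2).1)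
      (fun (j : Fin i ⊕ Fin l) c => c = Sum.elim (fun _ => 2) (fun _ => 1) j)) : ℕ) : ℤ) =
    LL ((pE σ * pI σ) ^ i * pN σ ^ l) := by
  classical
  rw [sum_RS σ m (Sum.elim (fun _ : Fin i => 2) (fun _ : Fin l => 1)) (by simp; omega)]
  rw [← LL_pV_pow]
  have h1 : pV σ ^ i * pN σ ^ l = ∏ j : Fin i ⊕ Fin l, pol (Sum.elim (fun _ => wV σ)
      (fun _ => wp σ fun n => n ≠ 0) j) := by
    rw [Fintype.prod_sum_type]
    simp [pV, pN]
  rw [h1, LL_prod, Nat.cast_sum]
  refine Finset.sum_congr rfl fun F _ => ?_
  split_ifs with hF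
  · rw [Nat.cast_prod]
    refine Finset.prod_congr rfl fun j _ => ?_
    have hinv := (inv_iff_fibres σ F).1 hF
    rcases j with j | j
    · simp only [Sum.elim_inl]
      rw [card_two_class, card_sub, wV, if_pos (hinv _)]
    · simp only [Sum.elim_inr]
      rw [card_one_class, wp, Fintype.card_subtype]
      simp only [hinv (Sum.inr j), true_and]
      split_ifs <;> rfl
  · rw [Nat.cast_zero]
    symm
    rw [inv_iff_fibres] at hF
    push Not at hF
    obtain ⟨j, hj⟩ := hF
    apply Finset.prod_eq_zero (mem_univ j)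
    rcases j with j | j
    · simp only [Sum.elim_inl]
      rw [wV, if_neg hj]
    · simp only [Sum.elim_inr]
      rw [wp, if_neg (fun h => hj h.1)]

end

end Pool.Agent.Helper293.EvenBlocks
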