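import Pool.Agent.Helper293.EvenBlocks.Poly

set_option autoImplicit false
set_option linter.unusedSectionVars false

namespace Pool.Agent.Helper293.EvenBlocks

open Finset

/-- invariant sets -/
def inv {X : Type} (σ : Equiv.Perm X) (T : Finset X) : Prop := ∀ x, σ x ∈ T ↔ x ∈ T

/-- alternating sets -/
def alt {X : Type} (σ : Equiv.Perm X) (T : Finset X) : Prop := ∀ x, σ x ∈ T ↔ x ∉ T

section
variable {Y : Type} [Fintype Y] [DecidableEq Y] (τ : Equiv.Perm Y)

open Classical in
omit [DecidableEq Y] in
theorem orbit_inv (z : Y) :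
    inv τ (univ.filter fun y => y ∈ MulAction.orbit (Subgroup.zpowers τ) z) := by
  intro x
  simp only [mem_filter, mem_univ, true_and]
  have h0 : τ x = (⟨τ, Subgroup.mem_zpowers τ⟩ : Subgroup.zpowers τ) • x := rfl
  constructor
  · intro h
    have h1 : x = (⟨τ, Subgroup.mem_zpowers τ⟩ : Subgroup.zpowers τ)⁻¹ • (τ x) := by
      rw [h0, inv_smul_smul]
    rw [h1]
    exact MulAction.mem_orbit_of_mem_orbit _ h
  · intro h
    rw [h0]
    exact MulAction.mem_orbit_of_mem_orbit _ h

open Classical in
omit [DecidableEq Y] in
theorem period_even (h : ∀ A : Finset Y, inv τ A → Even A.card) (z : Y) :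
    Even (Function.minimalPeriod (τ • ·) z) := by
  have h1 := h _ (orbit_inv τ z)
  rw [MulAction.minimalPeriod_eq_card]
  convert h1 using 1
  rw [Fintype.card_subtype]

omit [DecidableEq Y] in
theorem parity (h : ∀ A : Finset Y, inv τ A → Even A.card) (z : Y) (i j : ℤ)
    (hij : (τ ^ i) z = (τ ^ j) z) : Even (i - j) := by
  have h1 : τ ^ (i - j) • z = z := by
    rw [sub_eq_neg_add, zpow_add, Equiv.Perm.smul_def, Equiv.Perm.mul_apply, hij,
      ← Equiv.Perm.mul_apply, ← zpow_add]
    simp
  rw [MulAction.zpow_smul_eq_iff_minimalPeriod_dvd] at h1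
  have h2 := period_even τ h z
  have h3 : (2 : ℤ) ∣ (Function.minimalPeriod (τ • ·) z : ℤ) := by
    exact_mod_cast h2.two_dvd
  exact even_iff_two_dvd.2 (h3.trans h1)

open Classical in
omit [DecidableEq Y] in
theorem exists_alt (h : ∀ A : Finset Y, inv τ A → Even A.card) : ∃ A, alt τ A := by
  let rep : Y → Y := fun x => Quotient.out (Quotient.mk (Equiv.Perm.SameCycle.setoid τ) x)
  have h1 : ∀ x, Equiv.Perm.SameCycle τ (rep x) x := fun x =>
    @Quotient.mk_out Y (Equiv.Perm.SameCycle.setoid τ) x
  have h2 : ∀ x, ∃ i : ℤ, (τ ^ i) (rep x) = x := fun x => h1 x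
  choose e he using h2
  refine ⟨univ.filter fun x => ¬ Even (e x), ?_⟩
  intro x
  have h3 : rep (τ x) = rep x := by
    show Quotient.out _ = Quotient.out _
    congr 1
    apply Quotient.sound
    show Equiv.Perm.SameCycle τ (τ x) x
    exact ⟨-1, by simp⟩
  have h4 : (τ ^ (e (τ x))) (rep x) = (τ ^ (e x + 1)) (rep x) := by
    have := he (τ x)
    rw [h3] at this
    rw [this, add_comm, zpow_add, Equiv.Perm.mul_apply, he x, zpow_one]
  have h5 := parity τ h _ _ _ h4
  simp only [mem_filter, mem_univ, true_and, not_not]
  rw [Int.even_sub, Int.even_add_one] at h5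
  rw [h5]
  tauto

/-- complement of an invariant set -/
theorem inv_compl {A : Finset Y} (h : inv τ A) : inv τ Aᶜ := by
  intro x
  rw [mem_compl, mem_compl, h x]

theorem alt_compl {A : Finset Y} (h : alt τ A) : alt τ Aᶜ := by
  intro x
  rw [mem_compl, mem_compl, h x]

theorem inv_symmDiff {A D : Finset Y} (h : inv τ A) (hD : inv τ D) : inv τ (symmDiff A D) := by
  intro x
  rw [mem_symmDiff, mem_symmDiff, h x, hD x]

theorem alt_symmDiff {A D : Finset Y} (h : inv τ A) (hD : alt τ D) : alt τ (symmDiff A D) := by
  intro x
  rw [mem_symmDiff, mem_symmDiff, h x, hD x]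
  tauto

theorem inv_of_alt {A D : Finset Y} (h : alt τ A) (hD : alt τ D) : inv τ (symmDiff A D) := by
  intro x
  rw [mem_symmDiff, mem_symmDiff, h x, hD x]
  tauto

theorem even_of_alt {A D : Finset Y} (h : inv τ A) (hD : alt τ D) : Even A.card := by
  have h1 : (A ∩ D).card = (A \ D).card := by
    apply Finset.card_bij (fun x _ => τ x)
    · intro x hx
      rw [mem_inter] at hx
      rw [mem_sdiff, h x, hD x]
      exact ⟨hx.1, not_not.2 hx.2⟩
    · intro x _ y _ hxy
      exact τ.injective hxy
    · intro y hy
      rw [mem_sdiff] at hy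
      refine ⟨τ.symm y, ?_, by simp⟩
      have h2 := h (τ.symm y)
      have h3 := hD (τ.symm y)
      rw [Equiv.apply_symm_apply] at h2 h3
      rw [mem_inter]
      exact ⟨h2.1 hy.1, by by_contra h4; exact hy.2 (h3.2 h4)⟩
  have h2 := Finset.card_inter_add_card_sdiff A D
  rw [← h2, ← h1]
  exact ⟨_, rfl⟩

open Classical in
theorem card_alt : (univ.filter (alt τ)).card + (univ.filter (inv τ)).card =
    2 * (univ.filter fun A => inv τ A ∧ Even A.card).card := by
  by_cases h : ∃ D, alt τ D
  · obtain ⟨D, hD⟩ := h
    have h1 : (univ.filter fun A => inv τ A ∧ Even A.card) = univ.filter (inv τ) := by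
      ext A
      simp only [mem_filter, mem_univ, true_and]
      exact ⟨fun h => h.1, fun h => ⟨h, even_of_alt τ h hD⟩⟩
    have h2 : (univ.filter (alt τ)).card = (univ.filter (inv τ)).card := by
      apply Finset.card_bij (fun A _ => symmDiff A D)
      · intro A hA
        rw [mem_filter] at hA ⊢
        exact ⟨mem_univ _, inv_of_alt τ hA.2 hD⟩
      · intro A _ B _ hAB
        exact symmDiff_left_injective D hAB
      · intro B hB
        rw [mem_filter] at hB
        refine ⟨symmDiff B D, ?_, ?_⟩
        · rw [mem_filter]; exact ⟨mem_univ _, alt_symmDiff τ hB.2 hD⟩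
        · rw [symmDiff_assoc, symmDiff_self, symmDiff_bot]
    rw [h1, h2]; ring
  · have h0 : (univ.filter (alt τ)) = ∅ := by
      rw [Finset.filter_eq_empty_iff]
      intro A _ hA
      exact h ⟨A, hA⟩
    have h1 : ∃ D, inv τ D ∧ ¬ Even D.card := by
      by_contra h2
      push Not at h2
      exact h (exists_alt τ h2)
    obtain ⟨D, hD, hDo⟩ := h1
    have h2 : (univ.filter fun A => inv τ A ∧ Even A.card).card =
        (univ.filter fun A => inv τ A ∧ ¬ Even A.card).card := by
      have hpar : ∀ A : Finset Y, (symmDiff A D).card + 2 * (A ∩ D).card = A.card + D.card := by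
        intro A
        have e1 := Finset.card_inter_add_card_sdiff A D
        have e2 := Finset.card_inter_add_card_sdiff D A
        have e3 : (symmDiff A D).card = (A \ D).card + (D \ A).card := by
          rw [symmDiff_def, sup_eq_union, card_union_of_disjoint]
          exact disjoint_sdiff_sdiff
        rw [inter_comm D A] at e2
        omega
      apply Finset.card_bij (fun A _ => symmDiff A D)
      · intro A hA
        rw [mem_filter] at hA ⊢
        refine ⟨mem_univ _, inv_symmDiff τ hA.2.1 hD, ?_⟩
        have := hpar A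
        have h3 := hA.2.2
        rw [Nat.not_even_iff_odd] at hDo ⊢
        obtain ⟨u, hu⟩ := h3
        obtain ⟨v, hv⟩ := hDo
        rw [Nat.odd_iff]
        omega
      · intro A _ B _ hAB
        exact symmDiff_left_injective D hAB
      · intro B hB
        rw [mem_filter] at hB
        refine ⟨symmDiff B D, ?_, ?_⟩
        · rw [mem_filter]
          refine ⟨mem_univ _, inv_symmDiff τ hB.2.1 hD, ?_⟩
          have := hpar B
          have h3 := hB.2.2
          rw [Nat.not_even_iff_odd] at hDo h3
          obtain ⟨u, hu⟩ := h3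
          obtain ⟨v, hv⟩ := hDo
          rw [Nat.even_iff]
          omega
        · rw [symmDiff_assoc, symmDiff_self, symmDiff_bot]
    have h3 : (univ.filter (inv τ)).card = (univ.filter fun A => inv τ A ∧ Even A.card).card +
        (univ.filter fun A => inv τ A ∧ ¬ Even A.card).card := by
      rw [← Finset.card_filter_add_card_filter_not (s := univ.filter (inv τ))
        (fun A => Even A.card), filter_filter, filter_filter]
    rw [h0, h3, ← h2, card_empty]; ring

open Classical in
/-- pointed version -/
theorem card_pointed (x0 : Y) :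
    (univ.filter fun A => (inv τ A ∨ alt τ A) ∧ x0 ∉ A).card =
      (univ.filter fun A => inv τ A ∧ Even A.card).card := by
  have h1 := card_alt τ
  have hI : (univ.filter (inv τ)).card = 2 * (univ.filter fun A => inv τ A ∧ x0 ∉ A).card := by
    rw [← Finset.card_filter_add_card_filter_not (s := univ.filter (inv τ))
        (fun A => x0 ∉ A), filter_filter, filter_filter, two_mul]
    congr 1
    apply Finset.card_bij (fun A _ => Aᶜ)
    · intro A hA
      rw [mem_filter] at hA ⊢
      exact ⟨mem_univ _, inv_compl τ hA.2.1, by rw [mem_compl]; exact hA.2.2⟩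
    · intro A _ B _ hAB
      exact compl_injective hAB
    · intro B hB
      rw [mem_filter] at hB
      refine ⟨Bᶜ, ?_, compl_compl B⟩
      rw [mem_filter]
      exact ⟨mem_univ _, inv_compl τ hB.2.1, by rw [mem_compl, not_not]; exact hB.2.2⟩
  have hA : (univ.filter (alt τ)).card = 2 * (univ.filter fun A => alt τ A ∧ x0 ∉ A).card := by
    rw [← Finset.card_filter_add_card_filter_not (s := univ.filter (alt τ))
        (fun A => x0 ∉ A), filter_filter, filter_filter, two_mul]
    congr 1
    apply Finset.card_bij (fun A _ => Aᶜ)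
    · intro A hA
      rw [mem_filter] at hA ⊢
      exact ⟨mem_univ _, alt_compl τ hA.2.1, by rw [mem_compl]; exact hA.2.2⟩
    · intro A _ B _ hAB
      exact compl_injective hAB
    · intro B hB
      rw [mem_filter] at hB
      refine ⟨Bᶜ, ?_, compl_compl B⟩
      rw [mem_filter]
      exact ⟨mem_univ _, alt_compl τ hB.2.1, by rw [mem_compl, not_not]; exact hB.2.2⟩
  have hU : (univ.filter fun A => (inv τ A ∨ alt τ A) ∧ x0 ∉ A).card =
      (univ.filter fun A => inv τ A ∧ x0 ∉ A).card +
      (univ.filter fun A => alt τ A ∧ x0 ∉ A).card := by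
    rw [← card_union_of_disjoint]
    · congr 1
      ext A
      simp only [mem_filter, mem_univ, true_and, mem_union]
      tauto
    · rw [Finset.disjoint_left]
      intro A hA hB
      rw [mem_filter] at hA hB
      have e1 := hA.2.1 x0
      have e2 := hB.2.1 x0
      rw [e1] at e2
      tauto
  rw [hU]
  omega

/-- the relation whose classes are a set and its complement -/
def two (A : Finset Y) : Setoid Y where
  r x y := x ∈ A ↔ y ∈ A
  iseqv := ⟨fun _ => Iff.rfl, fun h => h.symm, fun h1 h2 => h1.trans h2⟩

theorem two_rel (A : Finset Y) (x y : Y) : two A x y ↔ (x ∈ A ↔ y ∈ A) := Iff.rfl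

theorem fx_two (A : Finset Y) (x0 : Y) : Fx τ (two A) ↔ inv τ A ∨ alt τ A := by
  constructor
  · intro h
    by_cases h0 : τ x0 ∈ A ↔ x0 ∈ A
    · left
      intro x
      have := h x x0
      rw [two_rel, two_rel] at this
      tauto
    · right
      intro x
      have := h x x0
      rw [two_rel, two_rel] at this
      tauto
  · rintro (h | h)
    · intro x y
      rw [two_rel, two_rel, h x, h y]
    · intro x y
      rw [two_rel, two_rel, h x, h y]
      tauto

theorem card_two (A : Finset Y) (x0 : Y) (h0 : x0 ∉ A) (hA : A.Nonempty) :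
    Nat.card (Quotient (two A)) = 2 := by
  obtain ⟨a, ha⟩ := hA
  rw [← Nat.card_congr (Equiv.refl Bool) |>.trans (by simp : Nat.card Bool = 2)]
  classical
  apply Nat.card_congr
  refine Equiv.ofBijective (Quotient.lift (fun x => decide (x ∈ A)) ?_) ⟨?_, ?_⟩
  · intro x y h
    exact decide_eq_decide.2 h
  · intro x y h
    induction x using Quotient.inductionOn with | _ x => ?_
    induction y using Quotient.inductionOn with | _ y => ?_
    exact Quotient.sound (decide_eq_decide.1 h)
  · intro b
    cases b
    · exact ⟨Quotient.mk _ x0, by simp [h0]⟩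
    · exact ⟨Quotient.mk _ a, by simp [ha]⟩

open Classical in
theorem exists_two (s : Setoid Y) (hs : Nat.card (Quotient s) = 2) (x0 : Y) :
    (univ.filter fun x => ¬ s x x0).Nonempty ∧ two (univ.filter fun x => ¬ s x x0) = s := by
  have h1 : Nontrivial (Quotient s) := by
    have : Finite (Quotient s) := Quotient.finite s
    rw [← Finite.one_lt_card_iff_nontrivial, hs]; norm_num
  obtain ⟨q, hq⟩ := exists_ne (Quotient.mk s x0)
  induction q using Quotient.inductionOn with | _ y0 => ?_
  have hy0 : ¬ s y0 x0 := fun h => hq (Quotient.sound h)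
  refine ⟨⟨y0, by simp [hy0]⟩, ?_⟩
  have key : ∀ x, s x x0 ∨ s x y0 := by
    intro x
    by_contra h
    push Not at h
    have hf : Function.Injective (![Quotient.mk s x0, Quotient.mk s y0, Quotient.mk s x]) := by
      have n1 : Quotient.mk s x0 ≠ Quotient.mk s y0 := fun e => hy0 (s.symm (Quotient.exact e))
      have n2 : Quotient.mk s x0 ≠ Quotient.mk s x := fun e => h.1 (s.symm (Quotient.exact e))
      have n3 : Quotient.mk s y0 ≠ Quotient.mk s x := fun e => h.2 (s.symm (Quotient.exact e))
      intro i j hij
      fin_cases i <;> fin_cases j <;> simp_all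
    have : Finite (Quotient s) := Quotient.finite s
    have h3 := Nat.card_le_card_of_injective _ hf
    rw [hs, Nat.card_eq_fintype_card, Fintype.card_fin] at h3
    omega
  ext x y
  rw [two_rel]
  simp only [mem_filter, mem_univ, true_and]
  constructor
  · intro h
    rcases key x with hx | hx
    · have hy : s y x0 := by by_contra h5; exact (h.2 h5) hx
      exact s.trans hx (s.symm hy)
    · by_cases hx' : s x x0
      · have hy : s y x0 := by by_contra h5; exact (h.2 h5) hx'
        exact s.trans hx' (s.symm hy)
      · have hy := h.1 hx'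
        have hy2 := (key y).resolve_left hy
        exact s.trans hx (s.symm hy2)
  · intro h
    constructor
    · intro h1 h2
      exact h1 (s.trans h h2)
    · intro h1 h2
      exact h1 (s.trans (s.symm h) h2)

open Classical in
/-- the number of fixed relations with exactly two classes -/
theorem card_two_class : Nat.card {s : Setoid Y // Fx τ s ∧ Nat.card (Quotient s) = 2} =
    (univ.filter fun A : Finset Y => inv τ A ∧ A.Nonempty ∧ Even A.card).card := by
  rcases isEmpty_or_nonempty Y with hY | ⟨⟨x0⟩⟩
  · have h1 : (univ.filter fun A : Finset Y => inv τ A ∧ A.Nonempty ∧ Even A.card) = ∅ := by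
      rw [Finset.filter_eq_empty_iff]
      rintro A _ ⟨_, ⟨x, _⟩, _⟩
      exact hY.elim x
    rw [h1, card_empty]
    have : IsEmpty {s : Setoid Y // Fx τ s ∧ Nat.card (Quotient s) = 2} := by
      refine ⟨fun s => ?_⟩
      have h2 : IsEmpty (Quotient s.1) := ⟨fun q => by
        induction q using Quotient.inductionOn with | _ x => ?_
        exact hY.elim x⟩
      have h3 := s.2.2
      rw [Nat.card_of_isEmpty] at h3
      omega
    exact Nat.card_of_isEmpty
  · have h1 := card_pointed τ x0
    have h2 : (univ.filter fun A => (inv τ A ∨ alt τ A) ∧ x0 ∉ A) =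
        insert ∅ (univ.filter fun A => ((inv τ A ∨ alt τ A) ∧ x0 ∉ A) ∧ A.Nonempty) := by
      ext A
      simp only [mem_filter, mem_univ, true_and, mem_insert]
      constructor
      · intro h
        rcases A.eq_empty_or_nonempty with h3 | h3
        · left; exact h3
        · right; exact ⟨h, h3⟩
      · rintro (rfl | h)
        · refine ⟨Or.inl ?_, by simp⟩
          intro x; simp
        · exact h.1
    have h3 : (univ.filter fun A => inv τ A ∧ Even A.card) =
        insert ∅ (univ.filter fun A : Finset Y => inv τ A ∧ A.Nonempty ∧ Even A.card) := by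
      ext A
      simp only [mem_filter, mem_univ, true_and, mem_insert]
      constructor
      · intro h
        rcases A.eq_empty_or_nonempty with h3 | h3
        · left; exact h3
        · right; exact ⟨h.1, h3, h.2⟩
      · rintro (rfl | h)
        · refine ⟨?_, by simp⟩
          intro x; simp
        · exact ⟨h.1, h.2.2⟩
    rw [h2, h3, card_insert_of_notMem (by simp), card_insert_of_notMem (by simp)] at h1
    rw [← Nat.succ_injective h1, Nat.card_eq_fintype_card, Fintype.card_subtype]
    symm
    apply Finset.card_bij (fun A _ => two A)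
    · intro A hA
      rw [mem_filter] at hA ⊢
      exact ⟨mem_univ _, (fx_two τ A x0).2 hA.2.1.1, card_two A x0 hA.2.1.2 hA.2.2⟩
    · intro A hA B hB hAB
      rw [mem_filter] at hA hB
      ext x
      have h4 : two A x x0 ↔ two B x x0 := by
        rw [show two A = two B from hAB]
      rw [two_rel, two_rel] at h4
      have h5 := hA.2.1.2
      have h6 := hB.2.1.2
      tauto
    · intro s hs
      rw [mem_filter] at hs
      obtain ⟨h4, h5⟩ := exists_two s hs.2.2 x0
      refine ⟨univ.filter fun x => ¬ s x x0, ?_, h5⟩
      rw [mem_filter]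
      refine ⟨mem_univ _, ⟨?_, ?_⟩, h4⟩
      · rw [← fx_two τ _ x0, h5]; exact hs.2.1
      · simp only [mem_filter, mem_univ, true_and, not_not]
        exact s.refl x0

end

end Pool.Agent.Helper293.EvenBlocks
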