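import Pool.Agent.Helper293.EvenBlocks.MainB
import Pool.Agent.Helper293.EvenBlocks.Pos

set_option autoImplicit false
set_option linter.unusedSectionVars false

namespace Pool.Agent.Helper293.EvenBlocks

open Finset

theorem exists_equiv {ι κ : Type} [Fintype ι] [Fintype κ] (v : ι → ℕ) (w : κ → ℕ)
    (h : (univ : Finset ι).val.map v = (univ : Finset κ).val.map w) :
    ∃ e : ι ≃ κ, ∀ j, w (e j) = v j := by
  classical
  have hc : ∀ c, Nonempty ({j // v j = c} ≃ {j // w j = c}) := by
    intro c
    apply Fintype.card_eq.1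
    rw [Fintype.card_subtype, Fintype.card_subtype]
    have h1 := congrArg (Multiset.count c) h
    rw [Multiset.count_map, Multiset.count_map] at h1
    have e1 : (univ.filter fun j => v j = c).card =
        (Multiset.filter (fun a => c = v a) (univ : Finset ι).val).card := by
      rw [Finset.card_def, Finset.filter_val]
      congr 1
      apply Multiset.filter_congr
      intro x _
      exact eq_comm
    have e2 : (univ.filter fun j => w j = c).card =
        (Multiset.filter (fun a => c = w a) (univ : Finset κ).val).card := by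
      rw [Finset.card_def, Finset.filter_val]
      congr 1
      apply Multiset.filter_congr
      intro x _
      exact eq_comm
    rw [e1, e2, h1]
  refine ⟨(Equiv.sigmaFiberEquiv v).symm.trans ((Equiv.sigmaCongrRight
    fun c => (hc c).some).trans (Equiv.sigmaFiberEquiv w)), ?_⟩
  intro j
  exact ((hc (v j)).some ⟨j, rfl⟩).2

theorem map_get (L : List ℕ) : (univ : Finset (Fin L.length)).val.map L.get = (L : Multiset ℕ) := by
  rw [Fin.univ_val_map, List.ofFn_get]

/-- the permutation character of a Young subgroup -/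
noncomputable def YY {N : ℕ} (σ : Equiv.Perm (Fin N)) (μ : Nat.Partition N) : ℕ :=
  Nat.card {f : Fin N → Fin μ.parts.toList.length //
                 (∀ x, f (σ x) = f x) ∧
                 ∀ i, (Finset.univ.filter (fun x => f x = i)).card = μ.parts.toList.get i}

theorem YY_eq {N : ℕ} (σ : Equiv.Perm (Fin N)) (μ : Nat.Partition N) {ι : Type} [Fintype ι]
    [DecidableEq ι] (v : ι → ℕ) (h : (univ : Finset ι).val.map v = μ.parts) :
    YY σ μ = cnt σ (fun (j : ι) c => c = v j) := by
  have h1 : (univ : Finset ι).val.map v =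
      (univ : Finset (Fin μ.parts.toList.length)).val.map μ.parts.toList.get := by
    rw [map_get, Multiset.coe_toList, h]
  obtain ⟨e, he⟩ := exists_equiv v _ h1
  unfold YY cnt
  apply Nat.card_congr
  exact
    { toFun := fun f => ⟨fun x => e.symm (f.1 x), fun x => by
        show e.symm (f.1 (σ x)) = e.symm (f.1 x)
        rw [f.2.1 x], fun j => by
        show Nat.card {x // e.symm (f.1 x) = j} = v j
        rw [← he j, ← f.2.2 (e j), natcard_fibre]
        congr 1
        ext x
        simp [Equiv.symm_apply_eq]⟩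
      invFun := fun f => ⟨fun x => e (f.1 x), fun x => by
        show e (f.1 (σ x)) = e (f.1 x)
        rw [f.2.1 x], fun i => by
        have h2 : Nat.card {x // f.1 x = e.symm i} = v (e.symm i) := f.2.2 (e.symm i)
        rw [← he (e.symm i), Equiv.apply_symm_apply, natcard_fibre] at h2
        rw [← h2]
        congr 1
        ext x
        simp [Equiv.eq_symm_apply]⟩
      left_inv := fun f => Subtype.ext (by funext x; simp)
      right_inv := fun f => Subtype.ext (by funext x; simp) }

open Classical in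
theorem cnt_sum_YY {N : ℕ} (σ : Equiv.Perm (Fin N)) {ι : Type} [Fintype ι]
    [DecidableEq ι] (v : ι → ℕ) (hv : ∀ j, 0 < v j) :
    cnt σ (fun (j : ι) c => c = v j) =
      ∑ μ : Nat.Partition N, (if (univ : Finset ι).val.map v = μ.parts then 1 else 0) * YY σ μ := by
  by_cases hs : ∑ j, v j = N
  · let μ0 : Nat.Partition N := ⟨(univ : Finset ι).val.map v, by
      intro i hi
      rw [Multiset.mem_map] at hi
      obtain ⟨j, _, rfl⟩ := hi
      exact hv j, hs⟩
    rw [Finset.sum_eq_single μ0]
    · rw [if_pos rfl, one_mul, YY_eq σ μ0 v rfl]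
    · intro μ _ hne
      rw [if_neg, zero_mul]
      intro h
      exact hne (Nat.Partition.ext h.symm)
    · intro h; exact absurd (mem_univ _) h
  · rw [cnt_eq_zero]
    · symm
      apply Finset.sum_eq_zero
      intro μ _
      rw [if_neg, zero_mul]
      intro h
      apply hs
      have := μ.parts_sum
      rw [← h] at this
      exact this
    · intro f hf
      apply hs
      have h1 := natcard_eq_sum_fibres f
      rw [Nat.card_eq_fintype_card, Fintype.card_fin] at h1
      rw [h1]
      exact Finset.sum_congr rfl fun j _ => (hf j).symm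

open Classical in
/-- splitting according to the sizes of the fibres -/
theorem NN_sum {N : ℕ} (σ : Equiv.Perm (Fin N)) (a b : ℕ) :
    NN σ a b = ∑ v : Fin a ⊕ Fin b → Fin (N + 1),
      if ∀ j, cond a b j (v j) then cnt σ (fun j c => c = (v j : ℕ)) else 0 := by
  unfold NN cnt
  rw [natcard_subtype_sum]
  have h0 : ∀ v : Fin a ⊕ Fin b → Fin (N + 1), Nat.card {f : Fin N → Fin a ⊕ Fin b //
      (∀ x, f (σ x) = f x) ∧ ∀ i, Nat.card {x // f x = i} = (v i : ℕ)} =
      ∑ f : Fin N → Fin a ⊕ Fin b, if (∀ x, f (σ x) = f x) ∧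
        ∀ i, Nat.card {x // f x = i} = (v i : ℕ) then 1 else 0 := fun v => natcard_subtype_sum _
  simp_rw [h0]
  rw [← Finset.sum_filter (s := (univ : Finset (Fin a ⊕ Fin b → Fin (N + 1)))), Finset.sum_comm]
  refine Finset.sum_congr rfl fun f _ => ?_
  have hb : ∀ j, Nat.card {x // f x = j} < N + 1 := by
    intro j
    have := Nat.card_le_card_of_injective (Subtype.val : {x // f x = j} → Fin N)
      Subtype.val_injective
    rw [Nat.card_eq_fintype_card (α := Fin N), Fintype.card_fin] at this
    omega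
  let v0 : Fin a ⊕ Fin b → Fin (N + 1) := fun j => ⟨Nat.card {x // f x = j}, hb j⟩
  by_cases h : (∀ x, f (σ x) = f x) ∧ ∀ j, cond a b j (Nat.card {x // f x = j})
  · rw [if_pos h, Finset.sum_eq_single v0]
    · rw [if_pos]
      exact ⟨h.1, fun j => rfl⟩
    · intro v hv hne
      rw [if_neg]
      rintro ⟨_, h2⟩
      apply hne
      funext j
      exact Fin.ext (h2 j).symm
    · intro hnot
      exfalso
      apply hnot
      rw [mem_filter]
      exact ⟨mem_univ _, h.2⟩
  · rw [if_neg h]
    symm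
    apply Finset.sum_eq_zero
    intro v hv
    rw [mem_filter] at hv
    rw [if_neg]
    rintro ⟨h1, h2⟩
    apply h
    refine ⟨h1, fun j => ?_⟩
    rw [h2 j]
    exact hv.2 j

open Classical in
/-- the multiplicities -/
noncomputable def mult (N a b : ℕ) (μ : Nat.Partition N) : ℕ :=
  ∑ v : Fin a ⊕ Fin b → Fin (N + 1), if (∀ j, cond a b j (v j)) ∧
    (univ : Finset (Fin a ⊕ Fin b)).val.map (fun j => (v j : ℕ)) = μ.parts then 1 else 0

theorem cond_pos {a b : ℕ} {j : Fin a ⊕ Fin b} {c : ℕ} (h : cond a b j c) : 0 < c := by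
  rcases j with j | j
  · simp only [cond, Sum.elim_inl] at h
    exact Nat.pos_of_ne_zero h.1
  · simp only [cond, Sum.elim_inr] at h
    exact h.pos

theorem NN_YY {N : ℕ} (σ : Equiv.Perm (Fin N)) (a b : ℕ) :
    NN σ a b = ∑ μ : Nat.Partition N, mult N a b μ * YY σ μ := by
  classical
  rw [NN_sum]
  unfold mult
  simp_rw [Finset.sum_mul]
  rw [Finset.sum_comm]
  refine Finset.sum_congr rfl fun v _ => ?_
  split_ifs with h
  · rw [cnt_sum_YY σ _ (fun j => cond_pos (h j))]
    refine Finset.sum_congr rfl fun μ _ => ?_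
    simp only [h, implies_true, true_and]
  · symm
    apply Finset.sum_eq_zero
    intro μ _
    rw [if_neg, zero_mul]
    exact fun h2 => h h2.1

theorem EV_YY {N : ℕ} (σ : Equiv.Perm (Fin N)) (k : ℕ) :
    EV σ k = ∑ μ : Nat.Partition N,
      ((∑ d ∈ range (2 * k + 2), ∑ b ∈ range (d + 1),
        (S k (d - b) b).toNat * mult N (d - b) b μ : ℕ) : ℤ) * (YY σ μ : ℤ) := by
  unfold EV
  have h1 : ∀ d b, S k (d - b) b * (NN σ (d - b) b : ℤ) =
      ∑ μ : Nat.Partition N, (((S k (d - b) b).toNat * mult N (d - b) b μ : ℕ) : ℤ) *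
        (YY σ μ : ℤ) := by
    intro d b
    rw [NN_YY]
    push_cast
    rw [Finset.mul_sum]
    refine Finset.sum_congr rfl fun μ _ => ?_
    rw [Int.toNat_of_nonneg (S_nonneg k _ _)]
    ring
  simp_rw [h1]
  simp_rw [Nat.cast_sum, Finset.sum_mul]
  symm
  rw [Finset.sum_comm]
  refine Finset.sum_congr rfl fun d _ => ?_
  rw [Finset.sum_comm]

/-- chains as in the problem -/
theorem mem_chains_iff {N k : ℕ} (σ : Equiv.Perm (Fin N)) (C : Finset (Setoid (Fin N))) :
    C ∈ chains (PS σ k) ↔ IsChain (· ≤ ·) (C : Set (Setoid (Fin N))) ∧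
      (∀ r ∈ C, ∃ j : ℕ, 1 ≤ j ∧ j ≤ k ∧ Nat.card (Quotient r) = 2 * j) ∧
      (∀ r ∈ C, Setoid.comap (⇑σ) r ∈ C) := by
  have hcard : ∀ r : Setoid (Fin N), Nat.card (Quotient (Setoid.comap (⇑σ) r)) =
      Nat.card (Quotient r) := by
    intro r
    exact Nat.card_congr (Quotient.congr σ fun x y => Iff.rfl)
  have hfix : ∀ r : Setoid (Fin N), Fx σ r ↔ Setoid.comap (⇑σ) r = r := by
    intro r
    constructor
    · intro h
      ext x y
      exact h x y
    · intro h x y
      exact Setoid.ext_iff.1 h x y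
  rw [mem_chains]
  constructor
  · rintro ⟨h1, h2⟩
    refine ⟨h2, fun r hr => (mem_PS.1 (h1 hr)).2, fun r hr => ?_⟩
    rw [(hfix r).1 (mem_PS.1 (h1 hr)).1]
    exact hr
  · rintro ⟨h1, h2, h3⟩
    refine ⟨fun r hr => ?_, h1⟩
    rw [mem_PS, hfix]
    refine ⟨?_, h2 r hr⟩
    rcases h1.total (mem_coe.2 (h3 r hr)) (mem_coe.2 hr) with h | h
    · exact eq_of_le_card h (hcard r)
    · exact (eq_of_le_card h (hcard r).symm).symm

theorem final (n k : ℕ) (hn : n ≠ 0) :
      ∃ c : Nat.Partition (2 * n) → ℕ,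
        ∀ σ : Equiv.Perm (Fin (2 * n)),
          (∑ᶠ (C : Finset (Setoid (Fin (2 * n))))
              (_ : IsChain (· ≤ ·) (C : Set (Setoid (Fin (2 * n)))) ∧
                   (∀ r ∈ C, ∃ j : ℕ, 1 ≤ j ∧ j ≤ k ∧ Nat.card (Quotient r) = 2 * j) ∧
                   (∀ r ∈ C, Setoid.comap (⇑σ) r ∈ C)),
              (-1 : ℤ) ^ (k + C.card))
          = ∑ μ : Nat.Partition (2 * n), (c μ : ℤ) *
              (Nat.card {f : Fin (2 * n) → Fin μ.parts.toList.length //
                 (∀ x, f (σ x) = f x) ∧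
                 ∀ i, (Finset.univ.filter (fun x => f x = i)).card = μ.parts.toList.get i} : ℤ) := by
  refine ⟨fun μ => ∑ d ∈ range (2 * k + 2), ∑ b ∈ range (d + 1),
        (S k (d - b) b).toNat * mult (2 * n) (d - b) b μ, fun σ => ?_⟩
  have h1 : ∑ᶠ (C : Finset (Setoid (Fin (2 * n))))
              (_ : IsChain (· ≤ ·) (C : Set (Setoid (Fin (2 * n)))) ∧
                   (∀ r ∈ C, ∃ j : ℕ, 1 ≤ j ∧ j ≤ k ∧ Nat.card (Quotient r) = 2 * j) ∧
                   (∀ r ∈ C, Setoid.comap (⇑σ) r ∈ C)),
              (-1 : ℤ) ^ (k + C.card) = ∑ C ∈ chains (PS σ k), (-1 : ℤ) ^ (k + C.card) := by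
    rw [← finsum_mem_coe_finset]
    apply finsum_congr
    intro C
    apply finsum_congr_Prop
    · intro _; rfl
    · rw [mem_coe, mem_chains_iff]
  rw [h1]
  have h2 : ∑ C ∈ chains (PS σ k), (-1 : ℤ) ^ (k + C.card) = (-1 : ℤ) ^ k * chi (PS σ k) := by
    unfold chi
    rw [Finset.mul_sum]
    refine Finset.sum_congr rfl fun C _ => ?_
    rw [pow_add]
  rw [h2, chi_eq k (Fin (2 * n)) σ, EV_YY]
  · rfl
  · rw [Nat.card_eq_fintype_card, Fintype.card_fin]; exact even_two_mul n
  · rw [Nat.card_eq_fintype_card, Fintype.card_fin]; omega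

end Pool.Agent.Helper293.EvenBlocks
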